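import Mathlib

set_option autoImplicit false

/-!
# Iterates of a polynomial and the products of the definition of the dynatomic polynomials
-/

namespace Pool.Agent.K1H73.DY

open Polynomial

/-- the `d`-th iterate of `h` -/
noncomputable def it {R : Type} [CommRing R] (h : R[X]) (d : ℕ) : R[X] := (h.comp)^[d] X

/-- `h^d (X) - X` -/
noncomputable def FF {R : Type} [CommRing R] (h : R[X]) (d : ℕ) : R[X] := it h d - X

/-- the product of the `h^d (X) - X` over the divisors `d` of `n` with `μ (n / d) = e` -/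
noncomputable def Pm {R : Type} [CommRing R] (h : R[X]) (n : ℕ) (e : ℤ) : R[X] :=
  ∏ d ∈ n.divisors, if ArithmeticFunction.moebius (n / d) = e then FF h d else 1

/-- `Φ` is the `n`-th dynatomic polynomial of `h` -/
def Dyn {R : Type} [CommRing R] (h : R[X]) (n : ℕ) (Φ : R[X]) : Prop := Φ * Pm h n (-1) = Pm h n 1

section ring

variable {R : Type} [CommRing R]

lemma it_zero (h : R[X]) : it h 0 = X := rfl

lemma it_succ (h : R[X]) (d : ℕ) : it h (d + 1) = h.comp (it h d) := by
  unfold it
  rw [Function.iterate_succ_apply']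

lemma it_one (h : R[X]) : it h 1 = h := by
  rw [it_succ, it_zero, comp_X]

lemma it_add (h : R[X]) (a b : ℕ) : it h (a + b) = (it h a).comp (it h b) := by
  induction a with
  | zero => rw [it_zero, X_comp, Nat.zero_add]
  | succ a ih => rw [Nat.add_right_comm, it_succ, ih, it_succ, comp_assoc]

lemma it_mul (h : R[X]) (q j : ℕ) : it h (q * j) = it (it h j) q := by
  induction q with
  | zero => rw [Nat.zero_mul, it_zero, it_zero]
  | succ q ih => rw [Nat.succ_mul, Nat.add_comm, it_add, ih, it_succ]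

lemma it_eval (h : R[X]) (d : ℕ) (y : R) : (it h d).eval y = (fun z => h.eval z)^[d] y := by
  induction d with
  | zero => rw [it_zero, eval_X, Function.iterate_zero_apply]
  | succ d ih => rw [it_succ, eval_comp, ih, Function.iterate_succ_apply']

lemma it_map {S : Type} [CommRing S] (φ : R →+* S) (h : R[X]) (d : ℕ) : (it h d).map φ = it (h.map φ) d := by
  induction d with
  | zero => rw [it_zero, it_zero, map_X]
  | succ d ih => rw [it_succ, it_succ, map_comp, ih]

lemma FF_map {S : Type} [CommRing S] (φ : R →+* S) (h : R[X]) (d : ℕ) : (FF h d).map φ = FF (h.map φ) d := by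
  unfold FF
  rw [Polynomial.map_sub, it_map, map_X]

lemma Pm_map {S : Type} [CommRing S] (φ : R →+* S) (h : R[X]) (n : ℕ) (e : ℤ) :
    (Pm h n e).map φ = Pm (h.map φ) n e := by
  unfold Pm
  rw [Polynomial.map_prod]
  apply Finset.prod_congr rfl
  intro d _
  split_ifs
  · exact FF_map φ h d
  · exact Polynomial.map_one φ

lemma Dyn_map {S : Type} [CommRing S] (φ : R →+* S) {h : R[X]} {n : ℕ} {Φ : R[X]} (H : Dyn h n Φ) :
    Dyn (h.map φ) n (Φ.map φ) := by
  unfold Dyn at H ⊢
  rw [← Pm_map, ← Pm_map, ← Polynomial.map_mul, H]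

lemma it_monic [Nontrivial R] {h : R[X]} (hm : h.Monic) (h2 : h.natDegree = 2) (d : ℕ) :
    (it h d).Monic ∧ (it h d).natDegree = 2 ^ d := by
  induction d with
  | zero =>
    rw [it_zero]
    exact ⟨monic_X, by rw [natDegree_X, pow_zero]⟩
  | succ d ih =>
    rw [it_succ]
    have hne : (it h d).natDegree ≠ 0 := by
      rw [ih.2]
      positivity
    refine ⟨hm.comp ih.1 hne, ?_⟩
    rw [natDegree_comp_eq_of_mul_ne_zero, h2, ih.2, pow_succ, mul_comm]
    rw [hm.leadingCoeff, ih.1.leadingCoeff, one_pow, mul_one]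
    exact one_ne_zero

lemma FF_monic [Nontrivial R] {h : R[X]} (hm : h.Monic) (h2 : h.natDegree = 2) {d : ℕ} (hd : 1 ≤ d) :
    (FF h d).Monic := by
  unfold FF
  obtain ⟨h3, h4⟩ := it_monic hm h2 d
  apply h3.sub_of_left
  rw [degree_X, degree_eq_natDegree h3.ne_zero, h4]
  have : 1 < 2 ^ d := Nat.one_lt_two_pow (by omega)
  exact_mod_cast this

end ring

section field

variable {k : Type} [Field k]

lemma natDegree_it {h : k[X]} (h2 : h.natDegree = 2) (d : ℕ) : (it h d).natDegree = 2 ^ d := by
  induction d with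
  | zero => rw [it_zero, natDegree_X, pow_zero]
  | succ d ih => rw [it_succ, natDegree_comp, h2, ih, pow_succ, mul_comm]

lemma FF_ne_zero {h : k[X]} (h2 : h.natDegree = 2) {d : ℕ} (hd : 1 ≤ d) : FF h d ≠ 0 := by
  intro h0
  unfold FF at h0
  have h1 : it h d = X := sub_eq_zero.1 h0
  have h3 := natDegree_it h2 d
  rw [h1, natDegree_X] at h3
  have : 1 < 2 ^ d := Nat.one_lt_two_pow (by omega)
  omega

lemma FF_eval {h : k[X]} {d : ℕ} {y : k} : (FF h d).eval y = 0 ↔ (it h d).eval y = y := by
  unfold FF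
  rw [eval_sub, eval_X, sub_eq_zero]

end field

end Pool.Agent.K1H73.DY
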