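import Pool.Agent.K1H73.DY.Two

set_option autoImplicit false

/-!
# `v_2 (c) = -1`: all `n ≥ 3`
-/

namespace Pool.Agent.K1H73.DY

open Polynomial

/-- `1 - 4 c` is not a square in the field of `2`-adic numbers if `|4 c| = 1 / 2` -/
lemma not_square {q : ℚ_[2]} (hq : ‖q‖ = 1 / 2) : ¬ IsSquare (1 - q) := by
  rintro ⟨s, hs⟩
  have h2 : ‖(2 : ℚ_[2])‖ = 1 / 2 := by
    have := Padic.norm_p (p := 2)
    push_cast at this
    rw [this]
    norm_num
  have hprod : (1 + s) * (1 - s) = q := by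
    have : (1 + s) * (1 - s) = 1 - s * s := by ring
    rw [this, ← hs]
    ring
  have hlt : ‖1 + s‖ < 1 := by
    by_contra hcon
    rw [not_lt] at hcon
    have e : 1 - s = 2 + -(1 + s) := by ring
    have h4 : ‖(2 : ℚ_[2])‖ ≠ ‖-(1 + s)‖ := by
      rw [h2, norm_neg]
      linarith
    have h3 : ‖1 - s‖ = ‖1 + s‖ := by
      rw [e, IsUltrametricDist.norm_add_eq_max_of_norm_ne_norm h4, h2, norm_neg]
      exact max_eq_right (by linarith)
    have h5 : ‖(1 + s) * (1 - s)‖ = 1 / 2 := by rw [hprod, hq]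
    rw [norm_mul, h3] at h5
    nlinarith
  have hlt2 : ‖1 - s‖ < 1 := by
    have e : 1 - s = 2 + -(1 + s) := by ring
    rw [e]
    refine (IsUltrametricDist.norm_add_le_max _ _).trans_lt (max_lt ?_ ?_)
    · rw [h2]; norm_num
    · rw [norm_neg]; exact hlt
  have hhalf : ∀ t : ℚ_[2], ‖t‖ < 1 → ‖t‖ ≤ 1 / 2 := by
    intro t ht
    have h6 := (Padic.norm_le_pow_iff_norm_lt_pow_add_one (p := 2) t (-1)).2 (by
      push_cast
      simpa using ht)
    push_cast at h6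
    have e : (2 : ℝ) ^ (-1 : ℤ) = 1 / 2 := by norm_num
    rw [e] at h6
    exact h6
  have h5 : ‖(1 + s) * (1 - s)‖ = 1 / 2 := by rw [hprod, hq]
  rw [norm_mul] at h5
  have h6 := hhalf _ hlt
  have h7 := hhalf _ hlt2
  nlinarith [norm_nonneg (1 + s), norm_nonneg (1 - s)]

/-- no element of exact period `n ≥ 3` under squaring satisfies `z ^ 4 = z` -/
lemma no4 {k : Type} [Field k] {z : k} {n : ℕ} (hn : 3 ≤ n)
    (h : n = Function.minimalPeriod (fun w : k => w ^ 2) z) (h4 : z ^ 4 = z) : False := by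
  have h1 : Function.IsPeriodicPt (fun w : k => w ^ 2) 2 z := by
    unfold Function.IsPeriodicPt Function.IsFixedPt
    rw [sq_iter]
    exact h4
  have h2 := Function.isPeriodicPt_iff_minimalPeriod_dvd.1 h1
  rw [← h] at h2
  have := Nat.le_of_dvd (by norm_num) h2
  omega

set_option maxHeartbeats 4000000 in
theorem case_d (hPER : S_PER) (hKEY : S_KEY) (hLIFT : S_LIFT) (hCONJ : S_CONJ) (hFROB : S_FROB) (hSW : S_SW)
    (hG1 : S_G1) (hG2 : S_G2) (c : ℚ) (n : ℕ) (hn : 3 ≤ n) (Φ : ℚ[X])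
    (hΦ : Dyn (X ^ 2 + C c) n Φ) (hc : ‖((4 * c : ℚ) : ℚ_[2])‖ = 1 / 2) : Concl Φ := by
  classical
  have hΦ0 : Φ ≠ 0 := Dyn_ne_zero (quad_monic c).2 hΦ
  obtain ⟨k, hk, A, res, _, hchar, hres⟩ := Pool.Agent.W999.HB.TP.main 2
  have h2k : (2 : k) = 0 := CharTwo.two_eq_zero
  obtain ⟨δ, hδ0⟩ := IsAlgClosed.exists_pow_nat_eq (1 - 4 * algebraMap ℚ (PadicAlgCl 2) c) (n := 2) (by norm_num)
  have hδ : δ ^ 2 = 1 - 4 * algebraMap ℚ (PadicAlgCl 2) c := hδ0
  have h4c : algebraMap ℚ (PadicAlgCl 2) (4 * c) = 4 * algebraMap ℚ (PadicAlgCl 2) c := by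
    rw [map_mul, map_ofNat]
  have hcn : ‖algebraMap ℚ (PadicAlgCl 2) (4 * c)‖ = 1 / 2 := by
    rw [norm_rat]
    exact hc
  have hprod : (1 + δ) * (1 - δ) = algebraMap ℚ (PadicAlgCl 2) (4 * c) := by
    rw [h4c]
    have : (1 + δ) * (1 - δ) = 1 - δ ^ 2 := by ring
    rw [this, hδ]
    ring
  have h2n := norm_two
  -- `|1 + δ| < 1`
  have hb1 : ‖1 + δ‖ < 1 := by
    by_contra hcon
    rw [not_lt] at hcon
    have e : 1 - δ = 2 + -(1 + δ) := by ring
    have h3 : ‖1 - δ‖ = ‖1 + δ‖ := by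
      have h4 : ‖(2 : PadicAlgCl 2)‖ ≠ ‖-(1 + δ)‖ := by
        rw [h2n, norm_neg]
        linarith
      rw [e, IsUltrametricDist.norm_add_eq_max_of_norm_ne_norm h4, h2n, norm_neg]
      exact max_eq_right (by linarith)
    have h5 : ‖(1 + δ) * (1 - δ)‖ = 1 / 2 := by rw [hprod, hcn]
    rw [norm_mul, h3] at h5
    nlinarith
  obtain ⟨b, hb⟩ : ∃ b : A, (b : PadicAlgCl 2) = 1 + δ := ⟨⟨1 + δ, (hres.1 _).2 hb1.le⟩, rfl⟩
  have hrb : res b = 0 := by
    rw [hres.2, hb]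
    exact hb1
  have hδA : δ ∈ A := by
    have : δ = (b : PadicAlgCl 2) - 1 := by rw [hb]; ring
    rw [this]
    exact A.sub_mem b.2 A.one_mem
  have hrδ : res ⟨δ, hδA⟩ = 1 := by
    have : (⟨δ, hδA⟩ : A) = b - 1 := by
      apply Subtype.ext
      show δ = (b : PadicAlgCl 2) - 1
      rw [hb]
      ring
    rw [this, map_sub, hrb, map_one, zero_sub, CharTwo.neg_eq]
  -- the residues of the roots
  have hset : ∀ x : PadicAlgCl 2, aeval x Φ = 0 → ∃ y : PadicAlgCl 2, x = y + (1 + δ) / 2 ∧ ∃ hyA : y ∈ A,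
      res ⟨y, hyA⟩ ^ (2 ^ n) = res ⟨y, hyA⟩ ∧
        n = Function.minimalPeriod (fun w : k => w ^ 2) (res ⟨y, hyA⟩) := by
    intro x hx
    obtain ⟨hA, hper, hn'⟩ := setup hPER hKEY hLIFT hCONJ hres (by omega) hΦ hδ hb hx
    have hfun : (fun z : k => z ^ 2 + res b * z) = fun w => w ^ 2 := by
      funext z
      rw [hrb, zero_mul, add_zero]
    rw [hfun] at hper hn'
    rw [sq_iter] at hper
    refine ⟨x - (1 + δ) / 2, by ring, hA, hper, ?_⟩
    rcases hn' with h | ⟨e, he⟩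
    · exact h
    · exfalso
      have hm : 1 ≤ Function.minimalPeriod (fun w : k => w ^ 2) (res ⟨_, hA⟩) := by
        apply Function.minimalPeriod_pos_of_mem_periodicPts
        refine ⟨n, by omega, ?_⟩
        unfold Function.IsPeriodicPt Function.IsFixedPt
        rw [sq_iter]
        exact hper
      obtain ⟨m, hm'⟩ : ∃ m, Function.minimalPeriod (fun w : k => w ^ 2) (res ⟨_, hA⟩) = m + 1 :=
        ⟨_, (Nat.sub_add_cancel hm).symm⟩
      rw [hm'] at he
      have hd : ((it (X ^ 2 + C (res b) * X : k[X]) (m + 1)).derivative).eval (res ⟨_, hA⟩) = 0 := by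
        rw [it_succ, derivative_comp, eval_mul, hrb]
        have : (X ^ 2 + C (0 : k) * X : k[X]).derivative = 0 := by
          rw [C_0, zero_mul, add_zero, derivative_X_pow]
          push_cast
          rw [h2k, C_0, zero_mul]
        rw [this, zero_comp, eval_zero, mul_zero]
      rw [hd] at he
      have h0 : orderOf (0 : k) = 0 := by
        rw [orderOf_eq_zero_iff']
        intro j hj h
        rw [zero_pow (by omega)] at h
        exact zero_ne_one h
      rw [h0, mul_zero, zero_mul] at he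
      omega
  -- a fixed root `x` of an automorphism which swaps the fixed points
  have hswap : ∀ σ : PadicAlgCl 2 ≃ₐ[ℚ_[2]] PadicAlgCl 2, σ δ = -δ → ∀ x y, x = y + (1 + δ) / 2 → σ x = x →
      σ y = y + δ := by
    intro σ hσ x y hxy hx
    have h1 : σ y + (1 - δ) / 2 = y + (1 + δ) / 2 := by
      rw [← hxy, ← hx, hxy, map_add, map_div₀, map_add, map_one, map_ofNat, hσ]
      ring
    linear_combination h1
  obtain ⟨φ, hφ⟩ := hFROB 2 n (by omega)
  have rpow : ∀ (a : PadicAlgCl 2) (ha : a ∈ A) (m : ℕ), res ⟨a ^ m, A.pow_mem ha m⟩ = res ⟨a, ha⟩ ^ m :=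
    fun a ha m => map_pow res (⟨a, ha⟩ : A) m
  have radd : ∀ (u v : PadicAlgCl 2) (hu : u ∈ A) (hv : v ∈ A),
      res ⟨u + v, A.add_mem hu hv⟩ = res ⟨u, hu⟩ + res ⟨v, hv⟩ := fun u v hu hv =>
    map_add res (⟨u, hu⟩ : A) (⟨v, hv⟩ : A)
  have rone : res ⟨1, A.one_mem⟩ = 1 := map_one res
  -- the Frobenius automorphism on residues
  have hφr : ∀ (a : PadicAlgCl 2) (ha : a ∈ A), res ⟨a, ha⟩ ^ (2 ^ n) = res ⟨a, ha⟩ →
      res ⟨φ a, aut_mem hres φ ha⟩ = res ⟨a, ha⟩ ^ 2 := by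
    intro a ha h
    have h1 : ‖a ^ (2 ^ n) - a‖ < 1 := by
      rw [← rpow] at h
      exact eq_res hres (A.pow_mem ha _) ha h
    have h3 := hφ a ((hres.1 _).1 ha) h1
    rw [← rpow]
    exact res_eq hres (aut_mem hres φ ha) (A.pow_mem ha _) h3
  have hφδ : φ δ = δ ∨ φ δ = -δ := by
    have e1 : (φ δ) ^ 2 = δ ^ 2 := by
      rw [← map_pow, hδ, map_sub, map_one, map_mul, map_ofNat]
      congr 2
      rw [eq_ratCast, map_ratCast]
    exact sq_eq_sq_iff_eq_or_eq_neg.1 e1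
  have hmain : ∃ σ : PadicAlgCl 2 ≃ₐ[ℚ_[2]] PadicAlgCl 2, ∀ x : PadicAlgCl 2, aeval x Φ = 0 → σ x ≠ x := by
    rcases hφδ with hφδ | hφδ
    · -- the Frobenius automorphism fixes `δ`
      obtain ⟨τ, hτ⟩ := hSW 2 (1 - ((4 * c : ℚ) : ℚ_[2])) (not_square hc) δ (by
        rw [hδ, map_sub, map_one, map_ratCast, ← h4c, eq_ratCast])
      by_contra hcon
      push Not at hcon
      obtain ⟨x, hx, hxτ⟩ := hcon τ
      obtain ⟨x', hx', hxτ'⟩ := hcon (φ * τ)
      obtain ⟨y, hxy, hyA, hy1, hy2⟩ := hset x hx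
      obtain ⟨y', hxy', hyA', hy1', hy2'⟩ := hset x' hx'
      have h1 := hswap τ hτ x y hxy hxτ
      have hττ : τ (τ y) = y := by
        rw [h1, map_add, h1, hτ]
        ring
      have hin : res ⟨y, hyA⟩ ∈ SS hres τ n := ⟨hy1, ⟨y, hyA⟩, rfl, by
        show ‖τ (τ y) - y‖ < 1
        rw [hττ, sub_self, norm_zero]
        exact one_pos⟩
      obtain ⟨-, a, ha1, ha2⟩ := SS_full hres τ (by omega) hin hy2.symm hy1'
      -- `τ τ y' ≡ y'`
      have hya : ‖(a : PadicAlgCl 2) - y'‖ < 1 := eq_res hres a.2 hyA' ha1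
      have h3 : ‖τ (τ y') - y'‖ < 1 := by
        have e : τ (τ y') - y' = -(τ (τ ((a : PadicAlgCl 2) - y'))) +
              ((τ (τ a) - a) + ((a : PadicAlgCl 2) - y')) := by
          rw [map_sub, map_sub τ]
          ring
        rw [e]
        refine (IsUltrametricDist.norm_add_le_max _ _).trans_lt (max_lt ?_ ?_)
        · rw [norm_neg, Pool.Agent.R940.norm_gal, Pool.Agent.R940.norm_gal]
          exact hya
        · exact (IsUltrametricDist.norm_add_le_max _ _).trans_lt (max_lt ha2 hya)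
      have h4 : φ (τ y') = y' + δ := hswap (φ * τ) (by
        show φ (τ δ) = -δ
        rw [hτ, map_neg, hφδ]) x' y' hxy' hxτ'
      have hwA : τ y' ∈ A := aut_mem hres τ hyA'
      have hw1 : res ⟨_, hwA⟩ ^ (2 ^ n) = res ⟨_, hwA⟩ := by
        have h5 : ‖y' ^ (2 ^ n) - y'‖ < 1 := by
          rw [← rpow] at hy1'
          exact eq_res hres (A.pow_mem hyA' _) hyA' hy1'
        have h6 : ‖(τ y') ^ (2 ^ n) - τ y'‖ < 1 := by
          rw [← map_pow, ← map_sub, Pool.Agent.R940.norm_gal]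
          exact h5
        rw [← rpow]
        exact res_eq hres (A.pow_mem hwA _) hwA h6
      have h5 := hφr _ hwA hw1
      have h6 : res ⟨_, hwA⟩ ^ 2 = res ⟨_, hyA'⟩ + 1 := by
        rw [← h5, ← hrδ, ← radd]
        congr 1
        apply Subtype.ext
        exact h4
      -- apply `τ`
      have h7 : res ⟨_, hyA'⟩ ^ 2 = res ⟨_, hwA⟩ + 1 := by
        have h8 : ‖(τ y') ^ 2 - (y' + 1)‖ < 1 := by
          have h9 : res ⟨_, A.pow_mem hwA 2⟩ = res ⟨_, A.add_mem hyA' A.one_mem⟩ := by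
            rw [rpow (τ y') hwA 2, radd y' 1 hyA' A.one_mem, h6, rone]
          exact eq_res hres _ _ h9
        have h10 : ‖y' ^ 2 - (τ y' + 1)‖ < 1 := by
          have e : y' ^ 2 - (τ y' + 1) = τ ((τ y') ^ 2 - (y' + 1)) +
              -((τ (τ y') - y') * (τ (τ y') + y')) := by
            rw [map_sub, map_pow, map_add, map_one]
            ring
          rw [e]
          refine (IsUltrametricDist.norm_add_le_max _ _).trans_lt (max_lt ?_ ?_)
          · rw [Pool.Agent.R940.norm_gal]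
            exact h8
          · rw [norm_neg, norm_mul]
            have h11 : ‖τ (τ y') + y'‖ ≤ 1 :=
              (hres.1 _).1 (A.add_mem (aut_mem hres τ hwA) hyA')
            nlinarith [norm_nonneg (τ (τ y') - y')]
        have h12 := res_eq hres (A.pow_mem hyA' 2) (A.add_mem hwA A.one_mem) h10
        rw [rpow y' hyA' 2, radd (τ y') 1 hwA A.one_mem, rone] at h12
        exact h12
      apply no4 hn hy2'
      have h12 : res ⟨_, hwA⟩ = res ⟨_, hyA'⟩ ^ 2 + 1 := by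
        rw [h7, add_assoc, one_add_one_eq_two, h2k, add_zero]
      rw [h12] at h6
      have h13 : (res ⟨_, hyA'⟩ ^ 2 + 1) ^ 2 = res ⟨_, hyA'⟩ ^ 4 + 1 := by
        have e : (res ⟨_, hyA'⟩ ^ 2 + 1) ^ 2 = res ⟨_, hyA'⟩ ^ 4 + 1 + 2 * res ⟨_, hyA'⟩ ^ 2 := by ring
        rw [e, h2k, zero_mul, add_zero]
      rw [h13] at h6
      exact add_right_cancel h6
    · refine ⟨φ, fun x hx hfix => ?_⟩
      obtain ⟨y, hxy, hyA, hy1, hy2⟩ := hset x hx
      have h1 := hswap φ hφδ x y hxy hfix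
      have h3 := hφr _ hyA hy1
      have h4 : res ⟨φ y, aut_mem hres φ hyA⟩ = res ⟨y, hyA⟩ + 1 := by
        rw [← hrδ, ← radd]
        congr 1
        apply Subtype.ext
        exact h1
      rw [h4] at h3
      apply no4 hn hy2
      have h5 : res ⟨y, hyA⟩ ^ 4 = (res ⟨y, hyA⟩ ^ 2) ^ 2 := by ring
      rw [h5, ← h3]
      have h6 : (res ⟨y, hyA⟩ + 1) ^ 2 = res ⟨y, hyA⟩ ^ 2 + 1 + 2 * res ⟨y, hyA⟩ := by ring
      rw [h6, h2k, zero_mul, add_zero, ← h3, add_assoc, one_add_one_eq_two, h2k, add_zero]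
  obtain ⟨σ, hσ⟩ := hmain
  obtain ⟨L, hL1, hL2, hL3, g, hg1, hg2⟩ := hG1 Φ hΦ0 (PadicAlgCl 2) (σ : PadicAlgCl 2 ≃+* PadicAlgCl 2)
    (fun x hx => hσ x hx)
  exact hG2 Φ hΦ0 L g hg1 hg2

end Pool.Agent.K1H73.DY
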