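import Pool.Agent.K1H73.DY.Two

set_option autoImplicit false

/-!
# `v_2 (c) = -2`: all `n ≥ 2` which are not powers of two
-/

namespace Pool.Agent.K1H73.DY

open Polynomial

/-- an odd rational number of norm `1` has residue `1` -/
lemma res_one {k : Type} [Field k] [CharP k 2] {A : Subring (PadicAlgCl 2)} {res : A →+* k}
    (hres : Pool.Agent.W528.HB.IsRes 2 A res) {q : ℚ} (hq : ¬ 2 ∣ q.den)
    (hA : algebraMap ℚ (PadicAlgCl 2) q ∈ A) (h1 : ‖algebraMap ℚ (PadicAlgCl 2) q‖ = 1) :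
    res ⟨_, hA⟩ = 1 := by
  rw [res_rat hq hA]
  have h2 : (q : ZMod 2) = 0 ∨ (q : ZMod 2) = 1 := by
    generalize (q : ZMod 2) = w
    revert w
    decide
  rcases h2 with h2 | h2
  · exfalso
    have h3 : res ⟨_, hA⟩ = 0 := by rw [res_rat hq hA, h2, map_zero]
    have h4 := (hres.2 _).1 h3
    exact absurd h1 h4.ne
  · rw [h2, map_one]

/-- the equation `z ^ 2 = z` -/
lemma idem {k : Type} [Field k] {z : k} (h : z ^ 2 = z) : z = 0 ∨ z = 1 := by
  have : z * (z - 1) = 0 := by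
    have e : z * (z - 1) = z ^ 2 - z := by ring
    rw [e, h, sub_self]
  rcases mul_eq_zero.1 this with h1 | h1
  · exact Or.inl h1
  · exact Or.inr (sub_eq_zero.1 h1)

theorem case_e (hPER : S_PER) (hKEY : S_KEY) (hLIFT : S_LIFT) (hCONJ : S_CONJ) (hFROB : S_FROB) (hRES : S_RES)
    (hG1 : S_G1) (hG2 : S_G2) (c : ℚ) (n : ℕ) (hn : 2 ≤ n) (hpow : ∀ e : ℕ, n ≠ 2 ^ e) (Φ : ℚ[X])
    (hΦ : Dyn (X ^ 2 + C c) n Φ) (hc1 : ¬ 2 ∣ (4 * c).den)
    (hc : ‖algebraMap ℚ (PadicAlgCl 2) (4 * c)‖ = 1) : Concl Φ := by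
  classical
  have hΦ0 : Φ ≠ 0 := Dyn_ne_zero (quad_monic c).2 hΦ
  obtain ⟨k, hk, A, res, _, hchar, hres⟩ := Pool.Agent.W999.HB.TP.main 2
  obtain ⟨δ, hδ0⟩ := IsAlgClosed.exists_pow_nat_eq (1 - 4 * algebraMap ℚ (PadicAlgCl 2) c) (n := 2) (by norm_num)
  have hδ : δ ^ 2 = 1 - 4 * algebraMap ℚ (PadicAlgCl 2) c := hδ0
  have h4c : algebraMap ℚ (PadicAlgCl 2) (4 * c) = 4 * algebraMap ℚ (PadicAlgCl 2) c := by
    rw [map_mul, map_ofNat]
  have hprod : (1 + δ) * (1 - δ) = algebraMap ℚ (PadicAlgCl 2) (4 * c) := by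
    rw [h4c]
    have : (1 + δ) * (1 - δ) = 1 - δ ^ 2 := by ring
    rw [this, hδ]
    ring
  have h2n := norm_two
  -- `1 + δ` is integral
  have hb1 : ‖1 + δ‖ ≤ 1 := by
    by_contra hcon
    rw [not_le] at hcon
    have e : 1 - δ = 2 + -(1 + δ) := by ring
    have h3 : ‖1 - δ‖ = ‖1 + δ‖ := by
      have h4 : ‖(2 : PadicAlgCl 2)‖ ≠ ‖-(1 + δ)‖ := by
        rw [h2n, norm_neg]
        linarith
      rw [e, IsUltrametricDist.norm_add_eq_max_of_norm_ne_norm h4, h2n, norm_neg]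
      exact max_eq_right (by linarith)
    have h5 : ‖(1 + δ) * (1 - δ)‖ = 1 := by rw [hprod, hc]
    rw [norm_mul, h3] at h5
    nlinarith
  obtain ⟨b, hb⟩ : ∃ b : A, (b : PadicAlgCl 2) = 1 + δ := ⟨⟨1 + δ, (hres.1 _).2 hb1⟩, rfl⟩
  have hcA : algebraMap ℚ (PadicAlgCl 2) (4 * c) ∈ A := (hres.1 _).2 hc.le
  have hrb : res b = 1 := by
    have h3 : b * b = 2 * b - ⟨_, hcA⟩ := by
      apply Subtype.ext
      have h5 : (b : PadicAlgCl 2) * b = 2 * b - algebraMap ℚ (PadicAlgCl 2) (4 * c) := by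
        rw [hb, ← hprod]
        ring
      exact h5
    have h4 := congrArg res h3
    have h2k : (2 : k) = 0 := CharTwo.two_eq_zero
    rw [map_mul, map_sub, map_mul, res_one hres hc1 hcA hc, map_ofNat, h2k, zero_mul, zero_sub,
      CharTwo.neg_eq] at h4
    have h5 : (res b - 1) ^ 2 = 0 := by
      have e : (res b - 1) ^ 2 = res b * res b - 2 * res b + 1 := by ring
      rw [e, h4, h2k, zero_mul, sub_zero, CharTwo.add_self_eq_zero]
    exact sub_eq_zero.1 (pow_eq_zero_iff (two_ne_zero) |>.1 h5)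
  have hδA : δ ∈ A := by
    have : δ = (b : PadicAlgCl 2) - 1 := by rw [hb]; ring
    rw [this]
    exact A.sub_mem b.2 A.one_mem
  have hrδ : res ⟨δ, hδA⟩ = 0 := by
    have : (⟨δ, hδA⟩ : A) = b - 1 := by
      apply Subtype.ext
      show δ = (b : PadicAlgCl 2) - 1
      rw [hb]
      ring
    rw [this, map_sub, hrb, map_one, sub_self]
  have hδn : ‖δ‖ < 1 := (hres.2 _).1 hrδ
  have hset : ∀ x : PadicAlgCl 2, aeval x Φ = 0 → _ := fun x hx =>
    setup hPER hKEY hLIFT hCONJ hres hn hΦ hδ hb hx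
  obtain ⟨M, hM, hMx⟩ := exists_M hRES 2
    ((Φ.map (algebraMap ℚ (PadicAlgCl 2))).roots.toFinset.image (fun x => x - (1 + δ) / 2)) (by
      intro y hy
      obtain ⟨x, hx, rfl⟩ := Finset.mem_image.1 hy
      rw [Multiset.mem_toFinset, mem_roots', IsRoot.def, eval_map_algebraMap] at hx
      obtain ⟨hA, -⟩ := hset x hx.2
      exact (hres.1 _).1 hA)
  obtain ⟨σ, hσ⟩ := hFROB 2 M hM
  obtain ⟨L, hL1, hL2, hL3, g, hg1, hg2⟩ := hG1 Φ hΦ0 (PadicAlgCl 2) (σ : PadicAlgCl 2 ≃+* PadicAlgCl 2) (by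
    intro x hx hfix
    have hfix' : σ x = x := hfix
    obtain ⟨hA, hper, hn'⟩ := hset x hx
    have h1 := hMx (x - (1 + δ) / 2) (by
      apply Finset.mem_image_of_mem
      rw [Multiset.mem_toFinset, mem_roots', IsRoot.def, eval_map_algebraMap]
      exact ⟨(Polynomial.map_ne_zero_iff (algebraMap ℚ (PadicAlgCl 2)).injective).2 hΦ0, hx⟩)
    have h2 := hσ _ ((hres.1 _).1 hA) h1
    -- `σ y = y` or `σ y = y + δ`
    have hδσ : σ δ = δ ∨ σ δ = -δ := by
      have e1 : (σ δ) ^ 2 = δ ^ 2 := by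
        rw [← map_pow, hδ, map_sub, map_one, map_mul, map_ofNat]
        congr 2
        rw [eq_ratCast, map_ratCast]
      exact sq_eq_sq_iff_eq_or_eq_neg.1 e1
    have h3 : ‖σ (x - (1 + δ) / 2) - (x - (1 + δ) / 2)‖ < 1 := by
      rw [map_sub, hfix', map_div₀, map_add, map_one, map_ofNat]
      rcases hδσ with h | h
      · rw [h, sub_self, norm_zero]
        exact one_pos
      · rw [h]
        have e : x - (1 + -δ) / 2 - (x - (1 + δ) / 2) = δ := by ring
        rw [e]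
        exact hδn
    have h4 : res ⟨_, hA⟩ ^ 2 = res ⟨_, hA⟩ := by
      rw [← map_pow]
      apply res_eq hres (A.pow_mem hA _) hA
      have e : (x - (1 + δ) / 2) ^ 2 - (x - (1 + δ) / 2) =
          (σ (x - (1 + δ) / 2) - (x - (1 + δ) / 2)) + -(σ (x - (1 + δ) / 2) - (x - (1 + δ) / 2) ^ 2) := by ring
      rw [e]
      refine (IsUltrametricDist.norm_add_le_max _ _).trans_lt (max_lt h3 ?_)
      rw [norm_neg]
      exact h2
    rw [hrb] at hper hn'
    have hf0 : (fun z : k => z ^ 2 + 1 * z) 0 = 0 := by simp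
    rcases idem h4 with hz | hz
    · rw [hz] at hn'
      have hm : Function.minimalPeriod (fun z : k => z ^ 2 + 1 * z) 0 = 1 :=
        Function.minimalPeriod_eq_one_iff_isFixedPt.2 hf0
      rw [hm, it_one] at hn'
      have hd : (X ^ 2 + C (1 : k) * X : k[X]).derivative.eval 0 = 1 := by
        simp
      rw [hd, orderOf_one] at hn'
      rcases hn' with h | ⟨e, he⟩
      · omega
      · rw [one_mul, one_mul] at he
        exact hpow e he
    · rw [hz] at hper
      have h6 : ∀ m : ℕ, 1 ≤ m → (fun z : k => z ^ 2 + 1 * z)^[m] 1 = 0 := by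
        intro m hm
        induction m, hm using Nat.le_induction with
        | base =>
          show (1 : k) ^ 2 + 1 * 1 = 0
          rw [one_pow, mul_one, CharTwo.add_self_eq_zero]
        | succ m hm ih =>
          rw [Function.iterate_succ_apply', ih]
          exact hf0
      rw [h6 n (by omega)] at hper
      exact zero_ne_one hper)
  exact hG2 Φ hΦ0 L g hg1 hg2

end Pool.Agent.K1H73.DY
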