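import Pool.Agent.K1H73.DY.Stm
import Pool.Agent.W999.HB.TP
import Pool.Agent.R940.Slope

set_option autoImplicit false

/-!
# Reduction of the roots of the dynatomic polynomials
-/

namespace Pool.Agent.K1H73.DY

open Polynomial

section norm

variable {K : Type} [NormedField K] [IsUltrametricDist K]

lemma norm_quad {a b y : K} (ha : ‖a‖ ≤ 1) (hb : ‖b‖ ≤ 1) (hy : 1 < ‖y‖) : ‖y ^ 2 + b * y + a‖ = ‖y‖ ^ 2 := by
  have h1 : ‖b * y + a‖ < ‖y ^ 2‖ := by
    refine (IsUltrametricDist.norm_add_le_max _ _).trans_lt ?_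
    rw [norm_mul, norm_pow, max_lt_iff]
    constructor
    · nlinarith [norm_nonneg b]
    · nlinarith
  rw [add_assoc, IsUltrametricDist.norm_add_eq_max_of_norm_ne_norm h1.ne', max_eq_left h1.le, norm_pow]

lemma norm_iter {a b y : K} (ha : ‖a‖ ≤ 1) (hb : ‖b‖ ≤ 1) (hy : 1 < ‖y‖) (n : ℕ) :
    ‖(fun z => z ^ 2 + b * z + a)^[n] y‖ = ‖y‖ ^ (2 ^ n) := by
  induction n with
  | zero => rw [Function.iterate_zero_apply, pow_zero, pow_one]
  | succ n ih =>
    rw [Function.iterate_succ_apply']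
    have h1 : 1 < ‖(fun z => z ^ 2 + b * z + a)^[n] y‖ := by
      rw [ih]
      exact one_lt_pow₀ hy (by positivity)
    show ‖((fun z => z ^ 2 + b * z + a)^[n] y) ^ 2 + b * _ + a‖ = _
    rw [norm_quad ha hb h1, ih, ← pow_mul, pow_succ]

lemma int_of_per {a b y : K} (ha : ‖a‖ ≤ 1) (hb : ‖b‖ ≤ 1) {n : ℕ} (hn : 1 ≤ n)
    (h : (fun z => z ^ 2 + b * z + a)^[n] y = y) : ‖y‖ ≤ 1 := by
  by_contra hcon
  rw [not_le] at hcon
  have h1 := norm_iter ha hb hcon n
  rw [h] at h1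
  have h2 : ‖y‖ ^ 1 < ‖y‖ ^ (2 ^ n) := pow_lt_pow_right₀ hcon (Nat.one_lt_two_pow (by omega))
  rw [pow_one] at h2
  exact absurd h1 h2.ne

end norm

lemma eval_quad {R : Type} [CommRing R] {h : R[X]} (hm : h.Monic) (h2 : h.natDegree = 2) (z : R) :
    h.eval z = z ^ 2 + h.coeff 1 * z + h.coeff 0 := by
  have h3 : h.coeff 2 = 1 := by
    rw [← h2]
    exact hm.coeff_natDegree
  rw [eval_eq_sum_range, h2, Finset.sum_range_succ, Finset.sum_range_succ, Finset.sum_range_one, h3]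
  ring

section core

variable {p : ℕ} [Fact p.Prime] {k : Type} [Field k] [CharP k p] {A : Subring (PadicAlgCl p)} {res : A →+* k}

/-- the root `y` is integral, its residue is a root of the reduced dynatomic polynomial, hence periodic with a
period related to `n` -/
theorem core (hPER : S_PER) (hKEY : S_KEY) (hLIFT : S_LIFT) (hres : Pool.Agent.W528.HB.IsRes p A res)
    {h : A[X]} (hm : h.Monic) (h2 : h.natDegree = 2) {n : ℕ} (hn : 1 ≤ n) {Φ : (PadicAlgCl p)[X]}
    (hΦ : Dyn (h.map A.subtype) n Φ) {y : PadicAlgCl p} (hy : Φ.eval y = 0) :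
    (∃ hyA : y ∈ A, (fun z => (h.map res).eval z)^[n] (res ⟨y, hyA⟩) = res ⟨y, hyA⟩ ∧
      (n = Function.minimalPeriod (fun z => (h.map res).eval z) (res ⟨y, hyA⟩) ∨
      ∃ e : ℕ, n = Function.minimalPeriod (fun z => (h.map res).eval z) (res ⟨y, hyA⟩) *
        orderOf ((it (h.map res) (Function.minimalPeriod (fun z => (h.map res).eval z)
          (res ⟨y, hyA⟩))).derivative.eval (res ⟨y, hyA⟩)) * p ^ e)) := by
  have hmK : (h.map A.subtype).Monic := hm.map _
  have h2K : (h.map A.subtype).natDegree = 2 := by rw [hm.natDegree_map, h2]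
  have hper := hPER _ _ h2K n hn Φ hΦ y hy
  rw [it_eval] at hper
  have hA : y ∈ A := by
    rw [hres.1]
    have h3 : (fun z => (h.map A.subtype).eval z) =
        fun z => z ^ 2 + (h.map A.subtype).coeff 1 * z + (h.map A.subtype).coeff 0 := by
      funext z
      exact eval_quad hmK h2K z
    rw [h3] at hper
    refine int_of_per ?_ ?_ hn hper
    · rw [coeff_map]
      exact (hres.1 _).1 (h.coeff 0).2
    · rw [coeff_map]
      exact (hres.1 _).1 (h.coeff 1).2
  refine ⟨hA, ?_⟩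
  obtain ⟨Φ₀, hΦ₀, hD⟩ := hLIFT _ A h hm h2 n hn Φ hΦ
  have hmk : (h.map res).Monic := hm.map _
  have h2k : (h.map res).natDegree = 2 := by rw [hm.natDegree_map, h2]
  have h0 : Φ₀.eval ⟨y, hA⟩ = 0 := by
    have h4 : A.subtype (Φ₀.eval ⟨y, hA⟩) = 0 := by
      rw [← hy, ← hΦ₀]
      exact (eval_map_apply (f := A.subtype) (p := Φ₀) (x := ⟨y, hA⟩)).symm
    exact Subtype.ext h4
  have h5 : (Φ₀.map res).eval (res ⟨y, hA⟩) = 0 := by
    rw [eval_map_apply, h0, map_zero]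
  have hDk := Dyn_map res hD
  have h6 := hPER _ _ h2k n hn _ hDk _ h5
  rw [it_eval] at h6
  exact ⟨h6, hKEY k p _ h2k n hn _ hDk _ h5⟩

end core

end Pool.Agent.K1H73.DY
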