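import Pool.Agent.K1H73.DY.Good

set_option autoImplicit false

/-!
# The cycles of `w ^ 2 + c` over small prime fields
-/

namespace Pool.Agent.K1H73.DY

open Polynomial

/-- `n` is related to a cycle of `w ^ 2 + c` over `F_p` -/
def Exc (p : ℕ) (c : ZMod p) (n : ℕ) : Prop := ∃ z : ZMod p, 1 ≤ Function.minimalPeriod (fq c) z ∧
  (n = Function.minimalPeriod (fq c) z ∨ ∃ e : ℕ, n = Function.minimalPeriod (fq c) z *
    orderOf (mult c z (Function.minimalPeriod (fq c) z)) * p ^ e)

/-- the table for a prime: the lengths of the cycles are at most `B`, and the products of the length and the order of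
the multiplier are in `S` -/
def Tab (p B R : ℕ) (S : Finset ℕ) : Prop := ∀ c z : ZMod p, ∀ m ∈ Finset.Icc 1 p, (fq c)^[m] z = z →
  (∀ j ∈ Finset.Ico 1 m, (fq c)^[j] z ≠ z) → m ≤ B ∧ (mult c z m = 0 ∨
    ∃ r ∈ Finset.Icc 1 R, mult c z m ^ r = 1 ∧ (∀ s ∈ Finset.Ico 1 r, mult c z m ^ s ≠ 1) ∧ m * r ∈ S)

theorem exc_of_tab {p B R : ℕ} [Fact p.Prime] {S : Finset ℕ} (hT : Tab p B R S) {c : ZMod p} {n : ℕ}
    (h : Exc p c n) (hn : B < n) : ∃ a ∈ S, ∃ e : ℕ, n = a * p ^ e := by
  obtain ⟨z, hz1, hz⟩ := h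
  obtain ⟨m, hm⟩ : ∃ m, Function.minimalPeriod (fq c) z = m := ⟨_, rfl⟩
  rw [hm] at hz1 hz
  have hle : m ≤ p := by
    rw [← hm]
    refine Function.minimalPeriod_le_card.trans ?_
    rw [ZMod.card]
  have hper : (fq c)^[m] z = z := by
    have := Function.isPeriodicPt_minimalPeriod (fq c) z
    rw [hm] at this
    exact this
  obtain ⟨h1, h2⟩ := hT c z m (Finset.mem_Icc.2 ⟨hz1, hle⟩) hper (fun j hj => by
    rw [Finset.mem_Ico] at hj
    have := Function.not_isPeriodicPt_of_pos_of_lt_minimalPeriod (f := fq c) (x := z) (n := j) (by omega)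
      (by omega)
    exact this)
  rcases hz with h3 | ⟨e, h3⟩
  · omega
  · rcases h2 with h4 | ⟨r, hr, h5, h6, h7⟩
    · rw [h4] at h3
      have h0 : orderOf (0 : ZMod p) = 0 := by
        rw [orderOf_eq_zero_iff']
        intro j hj h
        rw [zero_pow (by omega)] at h
        exact zero_ne_one h
      rw [h0, mul_zero, zero_mul] at h3
      omega
    · have h8 : orderOf (mult c z m) = r := by
        rw [Finset.mem_Icc] at hr
        rw [orderOf_eq_iff (by omega)]
        exact ⟨h5, fun s hs1 hs2 => h6 s (Finset.mem_Ico.2 ⟨hs2, hs1⟩)⟩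
      rw [h8] at h3
      exact ⟨m * r, h7, e, h3⟩

set_option maxRecDepth 100000 in
lemma tab3 : Tab 3 2 2 {1, 2} := by unfold Tab mult fq; decide

set_option maxRecDepth 100000 in
lemma tab5 : Tab 5 3 4 {1, 2, 4, 8} := by unfold Tab mult fq; decide

set_option maxRecDepth 100000 in
lemma tab7 : Tab 7 3 6 {1, 2, 3, 4, 6} := by unfold Tab mult fq; decide

set_option maxRecDepth 100000 in
lemma tab11 : Tab 11 5 10 {1, 2, 5, 6, 10, 15, 20} := by unfold Tab mult fq; decide

set_option maxRecDepth 100000 in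
lemma tab13 : Tab 13 6 12 {1, 2, 3, 4, 6, 8, 12, 24, 36} := by unfold Tab mult fq; decide

set_option maxRecDepth 1000000 in
lemma tab17 : Tab 17 6 16 {1, 2, 4, 8, 16, 24, 32, 48, 64, 80, 96} := by unfold Tab mult fq; decide

set_option maxRecDepth 1000000 in
lemma tab19 : Tab 19 7 18 {1, 2, 3, 6, 9, 12, 18, 36, 54, 72, 108} := by unfold Tab mult fq; decide

end Pool.Agent.K1H73.DY
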