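import Pool.Agent.K1H73.DY.Core

set_option autoImplicit false

/-!
# Primes of good reduction
-/

namespace Pool.Agent.K1H73.DY

open Polynomial

/-- the map `w ↦ w ^ 2 + c` -/
def fq {R : Type} [CommRing R] (c : R) : R → R := fun w => w ^ 2 + c

/-- the multiplier: the derivative of the `m`-th iterate of `w ^ 2 + c` at `z` -/
def mult {R : Type} [CommRing R] (c z : R) (m : ℕ) : R := ∏ i ∈ Finset.range m, (2 * (fq c)^[i] z)

lemma eval_fq {R : Type} [CommRing R] (c : R) : (fun z => (X ^ 2 + C c : R[X]).eval z) = fq c := by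
  funext z
  unfold fq
  rw [eval_add, eval_pow, eval_X, eval_C]

lemma deriv_quad {R : Type} [CommRing R] (c z : R) (m : ℕ) :
    (it (X ^ 2 + C c : R[X]) m).derivative.eval z = mult c z m := by
  induction m with
  | zero => rw [it_zero, derivative_X, eval_one]; rfl
  | succ m ih =>
    rw [it_succ, derivative_comp, eval_mul, ih, eval_comp, it_eval, eval_fq]
    unfold mult
    rw [Finset.prod_range_succ]
    congr 1
    simp only [derivative_add, derivative_X_pow, derivative_C, eval_add, eval_mul, eval_pow, eval_X, eval_C, eval_zero]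
    norm_num

/-- ring homomorphisms -/
lemma fq_map {R S : Type} [CommRing R] [CommRing S] (φ : R →+* S) (c z : R) (i : ℕ) :
    (fq (φ c))^[i] (φ z) = φ ((fq c)^[i] z) := by
  induction i with
  | zero => rfl
  | succ i ih =>
    rw [Function.iterate_succ_apply', Function.iterate_succ_apply', ih]
    unfold fq
    rw [map_add, map_pow]

lemma mult_map {R S : Type} [CommRing R] [CommRing S] (φ : R →+* S) (c z : R) (m : ℕ) :
    mult (φ c) (φ z) m = φ (mult c z m) := by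
  unfold mult
  rw [map_prod]
  apply Finset.prod_congr rfl
  intro i _
  rw [fq_map, map_mul, map_ofNat]

lemma period_map {R S : Type} [CommRing R] [CommRing S] (φ : R →+* S) (hφ : Function.Injective φ) (c z : R) :
    Function.minimalPeriod (fq (φ c)) (φ z) = Function.minimalPeriod (fq c) z := by
  rw [Function.minimalPeriod_eq_minimalPeriod_iff]
  intro n
  unfold Function.IsPeriodicPt Function.IsFixedPt
  rw [fq_map]
  exact hφ.eq_iff

lemma quad_monic {R : Type} [CommRing R] [Nontrivial R] (c : R) :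
    (X ^ 2 + C c : R[X]).Monic ∧ (X ^ 2 + C c : R[X]).natDegree = 2 :=
  ⟨monic_X_pow_add_C c (by norm_num), natDegree_X_pow_add_C⟩

lemma Dyn_ne_zero {k : Type} [Field k] {h : k[X]} (h2 : h.natDegree = 2) {n : ℕ} {Φ : k[X]}
    (H : Dyn h n Φ) : Φ ≠ 0 := by
  rintro rfl
  unfold Dyn at H
  rw [zero_mul] at H
  have h3 : Pm h n 1 ≠ 0 := by
    unfold Pm
    rw [Finset.prod_ne_zero_iff]
    intro d hd
    split_ifs
    · exact FF_ne_zero h2 (Nat.pos_of_mem_divisors hd)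
    · exact one_ne_zero
  exact h3 H.symm

section res

variable {p : ℕ} [Fact p.Prime] {k : Type} [Field k] [CharP k p] {A : Subring (PadicAlgCl p)} {res : A →+* k}

lemma norm_rat (c : ℚ) : ‖algebraMap ℚ (PadicAlgCl p) c‖ = ‖(c : ℚ_[p])‖ := by
  rw [← PadicAlgCl.norm_extends, map_ratCast, eq_ratCast]

lemma mem_rat (hres : Pool.Agent.W528.HB.IsRes p A res) {c : ℚ} (hc : ¬ p ∣ c.den) :
    algebraMap ℚ (PadicAlgCl p) c ∈ A := by
  rw [hres.1, norm_rat]
  exact Padic.norm_rat_le_one hc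

/-- the residue of a rational number -/
lemma res_rat {c : ℚ} (hc : ¬ p ∣ c.den) (h : algebraMap ℚ (PadicAlgCl p) c ∈ A) :
    res ⟨_, h⟩ = (ZMod.castHom (dvd_refl p) k) (c : ZMod p) := by
  rw [map_ratCast]
  have hd : (c.den : k) ≠ 0 := by
    rw [Ne, CharP.cast_eq_zero_iff k p]
    exact hc
  rw [Rat.cast_def, eq_div_iff hd]
  have h1 : (⟨_, h⟩ : A) * (c.den : A) = (c.num : A) := by
    apply Subtype.ext
    push_cast
    rw [eq_ratCast]
    have h3 : (c.den : PadicAlgCl p) ≠ 0 := by exact_mod_cast c.den_nz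
    conv_lhs => rw [Rat.cast_def]
    field_simp
  have h2 := congrArg res h1
  rw [map_mul, map_natCast, map_intCast] at h2
  exact h2

/-- congruences give equal residues -/
lemma res_eq (hres : Pool.Agent.W528.HB.IsRes p A res) {x y : PadicAlgCl p} (hx : x ∈ A) (hy : y ∈ A)
    (h : ‖x - y‖ < 1) : res ⟨x, hx⟩ = res ⟨y, hy⟩ := by
  have h1 : res ((⟨x, hx⟩ : A) - (⟨y, hy⟩ : A)) = 0 := (hres.2 _).2 (by rw [AddSubgroupClass.coe_sub]; exact h)
  rw [map_sub, sub_eq_zero] at h1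
  exact h1

lemma eq_res (hres : Pool.Agent.W528.HB.IsRes p A res) {x y : PadicAlgCl p} (hx : x ∈ A) (hy : y ∈ A)
    (h : res ⟨x, hx⟩ = res ⟨y, hy⟩) : ‖x - y‖ < 1 := by
  have h1 : res ((⟨x, hx⟩ : A) - (⟨y, hy⟩ : A)) = 0 := by rw [map_sub, h, sub_self]
  have h2 := (hres.2 ((⟨x, hx⟩ : A) - (⟨y, hy⟩ : A))).1 h1
  rw [AddSubgroupClass.coe_sub] at h2
  exact h2

end res

/-- a common `M` for finitely many integral elements -/
lemma exists_M (hRES : S_RES) (p : ℕ) [Fact p.Prime] (s : Finset (PadicAlgCl p)) (hs : ∀ x ∈ s, ‖x‖ ≤ 1) :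
    ∃ M : ℕ, 1 ≤ M ∧ ∀ x ∈ s, ‖x ^ (p ^ M) - x‖ < 1 := by
  classical
  obtain ⟨k, hk, A, res, _, hchar, hres⟩ := Pool.Agent.W999.HB.TP.main p
  have h1 : ∀ x : PadicAlgCl p, ∃ d : ℕ, 1 ≤ d ∧ (‖x‖ ≤ 1 → ‖x ^ (p ^ d) - x‖ < 1) := by
    intro x
    by_cases hx : ‖x‖ ≤ 1
    · obtain ⟨d, hd, h⟩ := hRES p x hx
      exact ⟨d, hd, fun _ => h⟩
    · exact ⟨1, le_rfl, fun h => absurd h hx⟩
  choose d hd hd2 using h1
  refine ⟨∏ x ∈ s, d x, Finset.one_le_prod'' (fun x => hd x) |>.trans' le_rfl, ?_⟩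
  intro x hx
  have hxA : x ∈ A := (hres.1 x).2 (hs x hx)
  obtain ⟨t, ht⟩ : d x ∣ ∏ x ∈ s, d x := Finset.dvd_prod_of_mem d hx
  rw [ht]
  have h2 : res ⟨x, hxA⟩ ^ (p ^ d x) = res ⟨x, hxA⟩ := by
    rw [← map_pow]
    exact res_eq hres (A.pow_mem hxA _) hxA (hd2 x (hs x hx))
  have h3 : ∀ t : ℕ, res ⟨x, hxA⟩ ^ (p ^ (d x * t)) = res ⟨x, hxA⟩ := by
    intro t
    induction t with
    | zero => rw [mul_zero, pow_zero, pow_one]
    | succ t ih => rw [mul_add, mul_one, pow_add, pow_mul, ih, h2]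
  have h4 := h3 t
  rw [← map_pow] at h4
  exact eq_res hres (A.pow_mem hxA _) hxA h4

/-- **Primes of good reduction.** -/
theorem good (hPER : S_PER) (hKEY : S_KEY) (hLIFT : S_LIFT) (hFROB : S_FROB) (hRES : S_RES) (hG1 : S_G1)
    (hG2 : S_G2) (c : ℚ) (n : ℕ) (hn : 1 ≤ n) (Φ : ℚ[X]) (hΦ : Dyn (X ^ 2 + C c) n Φ) (p : ℕ) [Fact p.Prime]
    (hp : ¬ p ∣ c.den)
    (hc : ∀ z : ZMod p, 1 ≤ Function.minimalPeriod (fq (c : ZMod p)) z →
      n ≠ Function.minimalPeriod (fq (c : ZMod p)) z ∧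
      ∀ e : ℕ, n ≠ Function.minimalPeriod (fq (c : ZMod p)) z *
        orderOf (mult (c : ZMod p) z (Function.minimalPeriod (fq (c : ZMod p)) z)) * p ^ e) :
    Concl Φ := by
  classical
  have hΦ0 : Φ ≠ 0 := Dyn_ne_zero (quad_monic c).2 hΦ
  obtain ⟨k, hk, A, res, _, hchar, hres⟩ := Pool.Agent.W999.HB.TP.main p
  obtain ⟨a, ha⟩ : ∃ a : A, a = ⟨algebraMap ℚ (PadicAlgCl p) c, mem_rat hres hp⟩ := ⟨_, rfl⟩
  have hma : ((X ^ 2 + C a : A[X]).map A.subtype) = X ^ 2 + C (algebraMap ℚ (PadicAlgCl p) c) := by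
    rw [Polynomial.map_add, Polynomial.map_pow, map_X, map_C, ha]
    rfl
  have hmk : ((X ^ 2 + C a : A[X]).map res) = X ^ 2 + C ((ZMod.castHom (dvd_refl p) k) (c : ZMod p)) := by
    rw [Polynomial.map_add, Polynomial.map_pow, map_X, map_C, ha, res_rat hp]
  have hD : Dyn ((X ^ 2 + C a : A[X]).map A.subtype) n (Φ.map (algebraMap ℚ (PadicAlgCl p))) := by
    have h1 := Dyn_map (algebraMap ℚ (PadicAlgCl p)) hΦ
    rw [Polynomial.map_add, Polynomial.map_pow, map_X, map_C] at h1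
    rw [hma]
    exact h1
  have hcore : ∀ y : PadicAlgCl p, (Φ.map (algebraMap ℚ (PadicAlgCl p))).eval y = 0 → _ := fun y hy =>
    core hPER hKEY hLIFT hres (quad_monic a).1 (quad_monic a).2 hn hD hy
  obtain ⟨M, hM, hMx⟩ := exists_M hRES p (Φ.map (algebraMap ℚ (PadicAlgCl p))).roots.toFinset (by
    intro x hx
    rw [Multiset.mem_toFinset, mem_roots', IsRoot.def] at hx
    obtain ⟨hA, -⟩ := hcore x hx.2
    exact (hres.1 x).1 hA)
  obtain ⟨σ, hσ⟩ := hFROB p M hM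
  obtain ⟨L, hL1, hL2, hL3, g, hg1, hg2⟩ := hG1 Φ hΦ0 (PadicAlgCl p) (σ : PadicAlgCl p ≃+* PadicAlgCl p) (by
    intro x hx hfix
    have hx' : (Φ.map (algebraMap ℚ (PadicAlgCl p))).eval x = 0 := by
      rw [eval_map_algebraMap]
      exact hx
    have hfix' : σ x = x := hfix
    obtain ⟨hA, hper, hn'⟩ := hcore x hx'
    have h1 := hMx x (by
      rw [Multiset.mem_toFinset, mem_roots', IsRoot.def]
      exact ⟨(Polynomial.map_ne_zero_iff (algebraMap ℚ (PadicAlgCl p)).injective).2 hΦ0, hx'⟩)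
    have h2 := hσ x ((hres.1 x).1 hA) h1
    rw [hfix'] at h2
    have h3 : res ⟨x, hA⟩ = res ⟨x, hA⟩ ^ p := by
      rw [← map_pow]
      exact res_eq hres hA (A.pow_mem hA _) h2
    have h4 : res ⟨x, hA⟩ ∈ (⊥ : Subfield k) := (Subfield.mem_bot_iff_pow_eq_self k p).2 h3.symm
    rw [← ZMod.fieldRange_castHom_eq_bot p] at h4
    obtain ⟨z, hz⟩ := h4
    have hord : ∀ w : ZMod p, orderOf ((ZMod.castHom (dvd_refl p) k) w) = orderOf w := fun w =>
      orderOf_injective (ZMod.castHom (dvd_refl p) k : ZMod p →* k) (RingHom.injective _) w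
    rw [hmk, eval_fq, deriv_quad, ← hz, period_map _ (RingHom.injective _), mult_map, hord] at hn'
    have hz1 : 1 ≤ Function.minimalPeriod (fq (c : ZMod p)) z := by
      by_contra hcon
      have h5 : Function.minimalPeriod (fq (c : ZMod p)) z = 0 := by omega
      rw [h5] at hn'
      rcases hn' with h6 | ⟨e, h6⟩
      · omega
      · rw [zero_mul, zero_mul] at h6
        omega
    rcases hn' with h6 | ⟨e, h6⟩
    · exact (hc z hz1).1 h6
    · exact (hc z hz1).2 e h6)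
  exact hG2 Φ hΦ0 L g hg1 hg2

end Pool.Agent.K1H73.DY
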