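import Pool.Agent.K1H73.DY.Data

set_option autoImplicit false

/-!
# Two primes of good reduction
-/

namespace Pool.Agent.K1H73.DY

open Finset

/-- the products of the tables -/
def SP (p : ℕ) : Finset ℕ :=
  if p = 3 then {1, 2} else if p = 5 then {1, 2, 4, 8} else if p = 7 then {1, 2, 3, 4, 6} else
  if p = 11 then {1, 2, 5, 6, 10, 15, 20} else if p = 13 then {1, 2, 3, 4, 6, 8, 12, 24, 36} else
  if p = 17 then {1, 2, 4, 8, 16, 24, 32, 48, 64, 80, 96} else {1, 2, 3, 6, 9, 12, 18, 36, 54, 72, 108}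

/-- the small primes -/
def PP : Finset ℕ := {3, 5, 7, 11, 13, 17, 19}

set_option maxRecDepth 1000000 in
lemma pairs : ∀ p ∈ PP, ∀ q ∈ PP, p < q →
    ∀ a ∈ SP p, ∀ b ∈ SP q, ∀ e ∈ range 5, p ^ e ∣ b → ∀ f ∈ range 5, q ^ f ∣ a → a * p ^ e = b * q ^ f →
      a * p ^ e ≤ 54 := by
  decide

set_option maxRecDepth 1000000 in
lemma pair35 : ∀ a ∈ SP 3, ∀ b ∈ SP 5, ∀ e ∈ range 5, 3 ^ e ∣ b → ∀ f ∈ range 5, 5 ^ f ∣ a → a * 3 ^ e = b * 5 ^ f →
      a * 3 ^ e ≤ 3 := by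
  decide

set_option maxRecDepth 1000000 in
lemma pair57 : ∀ a ∈ SP 5, ∀ b ∈ SP 7, ∀ e ∈ range 5, 5 ^ e ∣ b → ∀ f ∈ range 5, 7 ^ f ∣ a → a * 5 ^ e = b * 7 ^ f →
      a * 5 ^ e ≤ 4 := by
  decide

set_option maxRecDepth 1000000 in
lemma pair37 : ∀ a ∈ SP 3, ∀ b ∈ SP 7, ∀ e ∈ range 5, 3 ^ e ∣ b → ∀ f ∈ range 5, 7 ^ f ∣ a → a * 3 ^ e = b * 7 ^ f →
      a * 3 ^ e ≤ 3 ∨ a * 3 ^ e = 6 := by
  decide

lemma SP_le : ∀ p ∈ PP, ∀ b ∈ SP p, 1 ≤ b ∧ b ≤ 108 := by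
  decide

lemma PP_prime {p : ℕ} (hp : p ∈ PP) : p.Prime := by
  unfold PP at hp
  simp only [mem_insert, mem_singleton] at hp
  rcases hp with rfl | rfl | rfl | rfl | rfl | rfl | rfl <;> norm_num

/-- the tables -/
theorem exc_P {p : ℕ} (hp : p ∈ PP) [Fact p.Prime] {c : ZMod p} {n : ℕ} (h : Exc p c n) (hn : 7 < n) :
    ∃ a ∈ SP p, ∃ e : ℕ, n = a * p ^ e := by
  unfold PP at hp
  simp only [mem_insert, mem_singleton] at hp
  rcases hp with rfl | rfl | rfl | rfl | rfl | rfl | rfl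
  · exact exc_of_tab tab3 h (by omega)
  · exact exc_of_tab tab5 h (by omega)
  · exact exc_of_tab tab7 h (by omega)
  · exact exc_of_tab tab11 h (by omega)
  · exact exc_of_tab tab13 h (by omega)
  · exact exc_of_tab tab17 h (by omega)
  · exact exc_of_tab tab19 h (by omega)

/-- the exponents are small -/
lemma small {p q a b e f : ℕ} (hp : p ∈ PP) (hq : q ∈ PP) (hne : p ≠ q) (ha : a ∈ SP p) (hb : b ∈ SP q)
    (h : a * p ^ e = b * q ^ f) : p ^ e ∣ b ∧ q ^ f ∣ a ∧ e ∈ range 5 ∧ f ∈ range 5 := by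
  have hpp := PP_prime hp
  have hqp := PP_prime hq
  have hcop : Nat.Coprime (p ^ e) (q ^ f) := Nat.Coprime.pow _ _ ((Nat.coprime_primes hpp hqp).2 hne)
  have h1 : p ^ e ∣ b := by
    have : p ^ e ∣ b * q ^ f := h ▸ dvd_mul_left _ _
    exact hcop.dvd_of_dvd_mul_right this
  have h2 : q ^ f ∣ a := by
    have : q ^ f ∣ a * p ^ e := h ▸ dvd_mul_left _ _
    exact hcop.symm.dvd_of_dvd_mul_right this
  have h3 : ∀ r ∈ PP, 3 ≤ r := by decide
  have key : ∀ r g x : ℕ, 3 ≤ r → r ^ g ∣ x → 1 ≤ x → x ≤ 108 → g ∈ range 5 := by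
    intro r g x hr hd hx1 hx
    rw [mem_range]
    by_contra hcon
    have h4 : 3 ^ 5 ≤ r ^ g := (Nat.pow_le_pow_left hr 5).trans (Nat.pow_le_pow_right (by omega) (by omega))
    have h5 := Nat.le_of_dvd (by omega) hd
    omega
  exact ⟨h1, h2, key p e b (h3 p hp) h1 (SP_le q hq b hb).1 (SP_le q hq b hb).2,
    key q f a (h3 q hq) h2 (SP_le p hp a ha).1 (SP_le p hp a ha).2⟩

/-- two of the small primes: `n ≤ 54` -/
theorem exc_pairs {p q : ℕ} (hp : p ∈ PP) (hq : q ∈ PP) (hne : p < q) [Fact p.Prime] [Fact q.Prime] {c : ZMod p}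
    {c' : ZMod q} {n : ℕ} (h : Exc p c n) (h' : Exc q c' n) : n ≤ 54 := by
  by_contra hcon
  obtain ⟨a, ha, e, h1⟩ := exc_P hp h (by omega)
  obtain ⟨b, hb, f, h2⟩ := exc_P hq h' (by omega)
  obtain ⟨h3, h4, h5, h6⟩ := small hp hq hne.ne ha hb (h1.symm.trans h2)
  have := pairs p hp q hq hne a ha b hb e h5 h3 f h6 h4 (h1.symm.trans h2)
  omega

theorem exc35 [Fact (Nat.Prime 5)] {c : ZMod 3} {c' : ZMod 5} {n : ℕ} (h : Exc 3 c n) (h' : Exc 5 c' n) : n ≤ 3 := by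
  by_contra hcon
  obtain ⟨a, ha, e, h1⟩ := exc_of_tab tab3 h (by omega)
  obtain ⟨b, hb, f, h2⟩ := exc_of_tab tab5 h' (by omega)
  have hp : 3 ∈ PP := by decide
  have hq : 5 ∈ PP := by decide
  obtain ⟨h3, h4, h5, h6⟩ := small hp hq (by norm_num) ha hb (h1.symm.trans h2)
  have := pair35 a ha b hb e h5 h3 f h6 h4 (h1.symm.trans h2)
  omega

theorem exc57 [Fact (Nat.Prime 5)] [Fact (Nat.Prime 7)] {c : ZMod 5} {c' : ZMod 7} {n : ℕ} (h : Exc 5 c n) (h' : Exc 7 c' n) : n ≤ 4 := by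
  by_contra hcon
  obtain ⟨a, ha, e, h1⟩ := exc_of_tab tab5 h (by omega)
  obtain ⟨b, hb, f, h2⟩ := exc_of_tab tab7 h' (by omega)
  have hp : 5 ∈ PP := by decide
  have hq : 7 ∈ PP := by decide
  obtain ⟨h3, h4, h5, h6⟩ := small hp hq (by norm_num) ha hb (h1.symm.trans h2)
  have := pair57 a ha b hb e h5 h3 f h6 h4 (h1.symm.trans h2)
  omega

theorem exc37 [Fact (Nat.Prime 7)] {c : ZMod 3} {c' : ZMod 7} {n : ℕ} (h : Exc 3 c n) (h' : Exc 7 c' n) : n ≤ 3 ∨ n = 6 := by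
  by_contra hcon
  obtain ⟨a, ha, e, h1⟩ := exc_of_tab tab3 h (by omega)
  obtain ⟨b, hb, f, h2⟩ := exc_of_tab tab7 h' (by omega)
  have hp : 3 ∈ PP := by decide
  have hq : 7 ∈ PP := by decide
  obtain ⟨h3, h4, h5, h6⟩ := small hp hq (by norm_num) ha hb (h1.symm.trans h2)
  have := pair37 a ha b hb e h5 h3 f h6 h4 (h1.symm.trans h2)
  omega

/-- the prime 2 -/
theorem exc2 {c : ZMod 2} {n : ℕ} (hn : 1 ≤ n) (h : Exc 2 c n) : n ≤ 2 := by
  obtain ⟨z, hz1, hz⟩ := h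
  obtain ⟨m, hm⟩ : ∃ m, Function.minimalPeriod (fq c) z = m := ⟨_, rfl⟩
  rw [hm] at hz1 hz
  have hle : m ≤ 2 := by
    rw [← hm]
    refine Function.minimalPeriod_le_card.trans ?_
    rw [ZMod.card]
  rcases hz with h | ⟨e, h⟩
  · omega
  · exfalso
    have h0 : mult c z m = 0 := by
      unfold mult
      apply Finset.prod_eq_zero (i := 0) (mem_range.2 (by omega))
      rw [show (2 : ZMod 2) = 0 from rfl, zero_mul]
    have h1 : orderOf (0 : ZMod 2) = 0 := by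
      rw [orderOf_eq_zero_iff']
      intro j hj h
      rw [zero_pow (by omega)] at h
      exact zero_ne_one h
    rw [h0, h1, mul_zero, zero_mul] at h
    omega

/-- the general shape: `n = a p ^ e` with `a ≤ p (p - 1)` -/
theorem exc_shape {p : ℕ} [Fact p.Prime] {c : ZMod p} {n : ℕ} (hn : 1 ≤ n) (h : Exc p c n) :
    ∃ a e : ℕ, 1 ≤ a ∧ a ≤ p * (p - 1) ∧ n = a * p ^ e := by
  have hp2 : 2 ≤ p := (Fact.out : p.Prime).two_le
  obtain ⟨z, hz1, hz⟩ := h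
  obtain ⟨m, hm⟩ : ∃ m, Function.minimalPeriod (fq c) z = m := ⟨_, rfl⟩
  rw [hm] at hz1 hz
  have hle : m ≤ p := by
    rw [← hm]
    refine Function.minimalPeriod_le_card.trans ?_
    rw [ZMod.card]
  rcases hz with h | ⟨e, h⟩
  · refine ⟨m, 0, hz1, ?_, by rw [h, pow_zero, mul_one]⟩
    calc m ≤ p * 1 := by omega
      _ ≤ p * (p - 1) := Nat.mul_le_mul_left _ (by omega)
  · have h1 : 1 ≤ orderOf (mult c z m) := by
      by_contra hcon
      have h0 : orderOf (mult c z m) = 0 := by omega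
      rw [h0, mul_zero, zero_mul] at h
      omega
    have h2 : mult c z m ≠ 0 := by
      intro h0
      rw [h0] at h1
      have h3 : orderOf (0 : ZMod p) = 0 := by
        rw [orderOf_eq_zero_iff']
        intro j hj h
        rw [zero_pow (by omega)] at h
        exact zero_ne_one h
      omega
    have h3 : orderOf (mult c z m) ≤ p - 1 :=
      Nat.le_of_dvd (by omega) (orderOf_dvd_of_pow_eq_one (ZMod.pow_card_sub_one_eq_one h2))
    exact ⟨m * orderOf (mult c z m), e, Nat.mul_pos hz1 h1, Nat.mul_le_mul hle h3, h⟩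

/-- two primes: the general bound -/
theorem exc_bound {p q : ℕ} [Fact p.Prime] [Fact q.Prime] (hne : p ≠ q) {c : ZMod p} {c' : ZMod q} {n : ℕ}
    (hn : 1 ≤ n) (h : Exc p c n) (h' : Exc q c' n) : n ≤ p * (p - 1) * (q * (q - 1)) := by
  obtain ⟨a, e, ha1, ha, h1⟩ := exc_shape hn h
  obtain ⟨b, f, hb1, hb, h2⟩ := exc_shape hn h'
  have hcop : Nat.Coprime (q ^ f) (p ^ e) :=
    Nat.Coprime.pow _ _ ((Nat.coprime_primes (Fact.out) (Fact.out)).2 hne.symm)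
  have h3 : q ^ f ∣ a := by
    have : q ^ f ∣ a * p ^ e := by
      rw [← h1, h2]
      exact dvd_mul_left _ _
    exact hcop.dvd_of_dvd_mul_right this
  have h4 : q ^ f ≤ a := Nat.le_of_dvd (by omega) h3
  calc n = b * q ^ f := h2
    _ ≤ (q * (q - 1)) * (p * (p - 1)) := Nat.mul_le_mul hb (h4.trans ha)
    _ = p * (p - 1) * (q * (q - 1)) := mul_comm _ _

end Pool.Agent.K1H73.DY
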