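import Pool.Agent.K1H33.DY.Key
import Pool.Agent.K1H73.DY.Good

set_option autoImplicit false

/-!
# Real periodic points: `c > -3 / 4`
-/

namespace Pool.Agent.K1H73.DY

open Polynomial Pool.Agent.K1H33.DY

/-- the arithmetic: a prime for which the sums do not vanish -/
lemma exists_prime0 {k : Type} [Field k] [CharZero k] (l : k) (N : ℕ)
    (hN : 1 < N) (hne : N ≠ orderOf l) :
    ∃ q : ℕ, q.Prime ∧ q ∣ N ∧ ∀ j' e : ℕ, q * j' * e = N → ¬ q ∣ e →
      ∑ i ∈ Finset.range q, (l ^ j') ^ i ≠ 0 := by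
  by_cases hr : orderOf l ∣ N
  · obtain ⟨t, ht⟩ := hr
    have ht0 : t ≠ 0 := by
      rintro rfl
      rw [mul_zero] at ht
      omega
    have hr0 : orderOf l ≠ 0 := by
      intro h0
      rw [h0, zero_mul] at ht
      omega
    obtain ⟨q, hq, hqt⟩ := Nat.exists_prime_and_dvd (n := t) (by
      rintro rfl
      rw [mul_one] at ht
      exact hne ht)
    refine ⟨q, hq, by rw [ht]; exact hqt.mul_left _, ?_⟩
    intro j' e hje hqe hsum
    by_cases h1 : l ^ j' = 1
    · rw [h1] at hsum
      simp only [one_pow, Finset.sum_const, Finset.card_range, nsmul_eq_mul, mul_one] at hsum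
      exact hq.ne_zero (by exact_mod_cast hsum)
    · have h2 : (l ^ j') ^ q = 1 := by
        have := geom_sum_mul (l ^ j') q
        rw [hsum, zero_mul] at this
        exact (sub_eq_zero.1 this.symm)
      rw [← pow_mul] at h2
      obtain ⟨s, hs⟩ := orderOf_dvd_of_pow_eq_one h2
      have h3 : s * e = t := by
        have : orderOf l * (s * e) = orderOf l * t := by
          rw [← mul_assoc, ← hs, ← ht, ← hje]
          ring
        exact Nat.eq_of_mul_eq_mul_left (Nat.pos_of_ne_zero hr0) this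
      have h4 : q ∣ s := by
        have : q ∣ s * e := by rw [h3]; exact hqt
        exact (hq.dvd_mul.1 this).resolve_right hqe
      obtain ⟨s', hs'⟩ := h4
      have h5 : j' = orderOf l * s' := by
        have : q * j' = q * (orderOf l * s') := by
          rw [mul_comm q j', hs, hs']
          ring
        exact Nat.eq_of_mul_eq_mul_left hq.pos this
      apply h1
      rw [h5, pow_mul, pow_orderOf_eq_one, one_pow]
  · obtain ⟨q, hq, hqN⟩ := Nat.exists_prime_and_dvd (n := N) (by omega)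
    refine ⟨q, hq, hqN, ?_⟩
    intro j' e hje _ hsum
    by_cases h1 : l ^ j' = 1
    · apply hr
      rw [← hje]
      exact Dvd.dvd.mul_right (Dvd.dvd.mul_left (orderOf_dvd_of_pow_eq_one h1) _) _
    · have h2 : (l ^ j') ^ q = 1 := by
        have := geom_sum_mul (l ^ j') q
        rw [hsum, zero_mul] at this
        exact (sub_eq_zero.1 this.symm)
      rw [← pow_mul] at h2
      apply hr
      rw [← hje, mul_comm q j']
      exact Dvd.dvd.mul_right (orderOf_dvd_of_pow_eq_one h2) _

/-- the exact period and the multiplier of a root of a dynatomic polynomial in characteristic `0` -/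
theorem key0 (hA : S_A) (hB : S_B) (hPER : S_PER) (k : Type) [Field k] [CharZero k] (h : k[X])
    (h2 : h.natDegree = 2) (n : ℕ) (hn : 1 ≤ n) (Φ : k[X]) (hΦ : Dyn h n Φ) (y : k) (hy : Φ.eval y = 0) :
    n = Function.minimalPeriod (fun z => h.eval z) y ∨
      n = Function.minimalPeriod (fun z => h.eval z) y *
        orderOf ((it h (Function.minimalPeriod (fun z => h.eval z) y)).derivative.eval y) := by
  set f : k → k := fun z => h.eval z with hf
  set m := Function.minimalPeriod f y with hm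
  set l := (it h m).derivative.eval y with hl
  have hper : ∀ d : ℕ, (it h d).eval y = y ↔ m ∣ d := by
    intro d
    rw [it_eval]
    exact (Function.isPeriodicPt_iff_minimalPeriod_dvd (f := f) (x := y) (n := d))
  have hmn : m ∣ n := (hper n).1 (hPER k h h2 n hn Φ hΦ y hy)
  have hm0 : 0 < m := Nat.pos_of_dvd_of_pos hmn hn
  obtain ⟨N, hN⟩ := hmn
  have hN0 : 0 < N := Nat.pos_of_ne_zero (by rintro rfl; omega)
  by_contra hcon
  push Not at hcon
  obtain ⟨hc1, hc2⟩ := hcon
  have hN1 : 1 < N := by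
    rcases Nat.lt_or_ge 1 N with h | h
    · exact h
    · exact absurd (by rw [hN, show N = 1 by omega, mul_one]) hc1
  obtain ⟨q, hq, hqN, hqs⟩ := exists_prime0 (k := k) l N hN1 (fun he => hc2 (by
    rw [hN, he]))
  have hqn : q ∣ n := by rw [hN]; exact hqN.mul_left _
  refine hB k h h2 n hn Φ hΦ q hq hqn y ?_ hy
  intro d hd hqd
  obtain ⟨e, he⟩ := hd
  have hd0 : 0 < d := Nat.pos_of_ne_zero (by rintro rfl; omega)
  have hde : n / d = e := by rw [he]; exact Nat.mul_div_cancel_left _ hd0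
  rw [hde] at hqd
  have hqd' : q ∣ d := by
    have : q ∣ d * e := by rw [← he]; exact hqn
    exact (hq.dvd_mul.1 this).resolve_right hqd
  by_cases hdy : (it h d).eval y = y
  · have hmd := (hper d).1 hdy
    obtain ⟨j, hj⟩ := hmd
    have hje : j * e = N := by
      have : m * (j * e) = m * N := by rw [← mul_assoc, ← hj, ← he, hN]
      exact Nat.eq_of_mul_eq_mul_left hm0 this
    have hqj : q ∣ j := by
      have : q ∣ j * e := by rw [hje]; exact hqN
      exact (hq.dvd_mul.1 this).resolve_right hqd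
    obtain ⟨j', hj'⟩ := hqj
    have h6 : d = q * (m * j') := by rw [hj, hj']; ring
    have h7 : d / q = m * j' := by rw [h6]; exact Nat.mul_div_cancel_left _ hq.pos
    have h8 : 1 ≤ m * j' := Nat.pos_of_ne_zero (by intro h0; rw [h6, h0, mul_zero] at hd0; omega)
    have hmy : (it h m).eval y = y := (hper m).2 dvd_rfl
    have h9 : (it h (m * j')).derivative.eval y = l ^ j' := by
      rw [mul_comm m j', it_mul]
      exact (mult_it (it h m) y hmy j').2
    rw [h7]
    conv_lhs => rw [h6]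
    apply hA k h h2 q (m * j') hq.one_le h8 y ((hper _).2 (Dvd.intro _ rfl))
    rw [h9]
    exact hqs j' e (by rw [← hj', hje]) hqd
  · have h10 : ¬ (it h (d / q)).eval y = y := by
      intro h0
      apply hdy
      rw [hper] at h0 ⊢
      exact h0.trans (Nat.div_dvd_of_dvd hqd')
    rw [rootMultiplicity_eq_zero, rootMultiplicity_eq_zero]
    · intro h0
      exact h10 (FF_eval.1 h0)
    · intro h0
      exact hdy (FF_eval.1 h0)


/-! ### The real dynamics -/

/-- For `c > -3 / 4` the real periodic points of `x ^ 2 + c` are the fixed points. -/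
theorem real_per {c : ℝ} (hc : -3 / 4 < c) {x : ℝ} {n : ℕ} (hn : 1 ≤ n) (hx : (fq c)^[n] x = x) : fq c x = x := by
  classical
  by_contra hnx
  have hf : ∀ y, fq c y = y ^ 2 + c := fun y => rfl
  -- the orbit
  obtain ⟨P, hP⟩ : ∃ P : Finset ℝ, P = (Finset.range n).image (fun i => (fq c)^[i] x) := ⟨_, rfl⟩
  have hPne : P.Nonempty := by
    rw [hP]
    exact (Finset.nonempty_range_iff.2 (by omega)).image _
  have hmem : ∀ y, y ∈ P ↔ ∃ i < n, (fq c)^[i] x = y := by
    intro y
    rw [hP, Finset.mem_image]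
    simp only [Finset.mem_range]
  have hPf : ∀ y ∈ P, fq c y ∈ P := by
    intro y hy
    obtain ⟨i, hi, rfl⟩ := (hmem y).1 hy
    rw [hmem]
    by_cases h : i + 1 < n
    · exact ⟨i + 1, h, Function.iterate_succ_apply' (fq c) i x⟩
    · refine ⟨0, by omega, ?_⟩
      have h1 : i + 1 = n := by omega
      rw [Function.iterate_zero_apply, ← Function.iterate_succ_apply' (fq c) i x, Nat.succ_eq_add_one, h1, hx]
  have hPsurj : ∀ y ∈ P, ∃ z ∈ P, fq c z = y := by
    intro y hy
    obtain ⟨i, hi, rfl⟩ := (hmem y).1 hy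
    rcases Nat.eq_zero_or_pos i with rfl | hi0
    · refine ⟨(fq c)^[n - 1] x, (hmem _).2 ⟨n - 1, by omega, rfl⟩, ?_⟩
      rw [← Function.iterate_succ_apply' (fq c) (n - 1) x, Nat.succ_eq_add_one, Nat.sub_add_cancel hn, hx,
        Function.iterate_zero_apply]
    · refine ⟨(fq c)^[i - 1] x, (hmem _).2 ⟨i - 1, by omega, rfl⟩, ?_⟩
      rw [← Function.iterate_succ_apply' (fq c) (i - 1) x, Nat.succ_eq_add_one, Nat.sub_add_cancel hi0]
  -- no fixed points in the orbit
  have hnf : ∀ y ∈ P, fq c y ≠ y := by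
    intro y hy hfy
    obtain ⟨i, hi, rfl⟩ := (hmem y).1 hy
    have h1 : ∀ j, (fq c)^[j] ((fq c)^[i] x) = (fq c)^[i] x := by
      intro j
      induction j with
      | zero => rfl
      | succ j ih => rw [Function.iterate_succ_apply', ih, hfy]
    have h2 := h1 (n - i)
    rw [← Function.iterate_add_apply, Nat.sub_add_cancel hi.le, hx] at h2
    rw [← h2] at hfy
    exact hnx hfy
  obtain ⟨M, hM⟩ : ∃ M, M = P.max' hPne := ⟨_, rfl⟩
  have hMP : M ∈ P := hM ▸ P.max'_mem hPne
  have hMle : ∀ y ∈ P, y ≤ M := fun y hy => hM ▸ P.le_max' y hy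
  rcases le_or_gt 0 c with hc0 | hc0
  · obtain ⟨z, hz, hzM⟩ := hPsurj M hMP
    obtain ⟨w, hw, hwz⟩ := hPsurj z hz
    have hz0 : 0 ≤ z := by
      rw [← hwz, hf]
      positivity
    have hzM' := hMle z hz
    have h1 : fq c M ≤ M := hMle _ (hPf M hMP)
    rw [hf] at hzM h1
    apply hnf M hMP
    rw [hf]
    nlinarith
  · obtain ⟨s, hs⟩ : ∃ s, s = Real.sqrt (1 - 4 * c) := ⟨_, rfl⟩
    have hs2 : s ^ 2 = 1 - 4 * c := by
      rw [hs, Real.sq_sqrt (by linarith)]
    have hs0 : 0 ≤ s := by
      rw [hs]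
      exact Real.sqrt_nonneg _
    have hs1 : 1 < s := by nlinarith
    have hfac : ∀ y, fq c y - y = (y - (1 - s) / 2) * (y - (1 + s) / 2) := by
      intro y
      rw [hf]
      nlinarith
    have hα : fq c ((1 - s) / 2) = (1 - s) / 2 := by
      rw [hf]
      nlinarith
    have hMlt : fq c M < M := lt_of_le_of_ne (hMle _ (hPf M hMP)) (hnf M hMP)
    have hMα : (1 - s) / 2 < M ∧ M < (1 + s) / 2 := by
      have h1 := hfac M
      have h2 : (M - (1 - s) / 2) * (M - (1 + s) / 2) < 0 := by linarith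
      constructor
      · by_contra hcon
        rw [not_lt] at hcon
        nlinarith
      · by_contra hcon
        rw [not_lt] at hcon
        nlinarith
    -- the smallest point above `α`
    obtain ⟨Q, hQ⟩ : ∃ Q : Finset ℝ, Q = P.filter (fun y => (1 - s) / 2 < y) := ⟨_, rfl⟩
    have hQne : Q.Nonempty := ⟨M, by rw [hQ, Finset.mem_filter]; exact ⟨hMP, hMα.1⟩⟩
    obtain ⟨v, hv⟩ : ∃ v, v = Q.min' hQne := ⟨_, rfl⟩
    have hvQ : v ∈ Q := hv ▸ Q.min'_mem hQne
    have hvle : ∀ y ∈ P, (1 - s) / 2 < y → v ≤ y := fun y hy h => by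
      rw [hv]
      exact Q.min'_le y (by rw [hQ, Finset.mem_filter]; exact ⟨hy, h⟩)
    rw [hQ, Finset.mem_filter] at hvQ
    obtain ⟨hvP, hvα⟩ := hvQ
    have hvβ : v < (1 + s) / 2 := (hMle v hvP).trans_lt hMα.2
    have h1 : fq c v < v := by
      have := hfac v
      nlinarith
    have h2 : fq c v < (1 - s) / 2 := by
      by_contra hcon
      rw [not_lt] at hcon
      rcases hcon.lt_or_eq with h | h
      · have := hvle _ (hPf v hvP) h
        linarith
      · exact hnf _ (hPf v hvP) (by rw [← h]; exact hα)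
    have h3 : (1 - s) / 2 < fq c (fq c v) := by
      have h4 : fq c (fq c v) - (1 - s) / 2 = (fq c v - (1 - s) / 2) * (fq c v + (1 - s) / 2) := by
        rw [hf (fq c v)]
        nlinarith
      nlinarith
    have h4 : fq c (fq c v) < v := by
      have h5 : fq c (fq c v) - v = (fq c v - v) * (fq c v + v + 1) := by
        rw [hf (fq c v), hf v]
        ring
      have h6 : 0 < fq c v + v + 1 := by
        rw [hf v]
        nlinarith [sq_nonneg (v + 1 / 2)]
      nlinarith
    have h5 := hvle _ (hPf _ (hPf v hvP)) h3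
    linarith

/-- **`c > -3 / 4`: complex conjugation** -/
theorem case_real (hA : S_A) (hB : S_B) (hPER : S_PER) (hG1 : S_G1) (hG2 : S_G2) (c : ℚ) (n : ℕ) (hn : 3 ≤ n)
    (Φ : ℚ[X]) (hΦ : Dyn (X ^ 2 + C c) n Φ) (hc : -3 / 4 < c) : Concl Φ := by
  have hΦ0 : Φ ≠ 0 := Dyn_ne_zero (quad_monic c).2 hΦ
  have hD := Dyn_map (algebraMap ℚ ℂ) hΦ
  rw [Polynomial.map_add, Polynomial.map_pow, map_X, map_C] at hD
  obtain ⟨L, hL1, hL2, hL3, g, hg1, hg2⟩ := hG1 Φ hΦ0 ℂ (Complex.conjAe : ℂ ≃+* ℂ) (by
    intro x hx hfix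
    have hfix' : (starRingEnd ℂ) x = x := hfix
    obtain ⟨r, rfl⟩ := Complex.conj_eq_iff_real.1 hfix'
    have hx' : (Φ.map (algebraMap ℚ ℂ)).eval (r : ℂ) = 0 := by
      rw [eval_map_algebraMap]
      exact hx
    have hcR : (algebraMap ℚ ℂ c) = ((c : ℝ) : ℂ) := by
      rw [eq_ratCast]
      push_cast
      rfl
    have h1 := hPER _ _ (quad_monic _).2 n (by omega) _ hD _ hx'
    rw [it_eval, eval_fq, hcR] at h1
    have h2 : (fq ((c : ℝ) : ℂ))^[n] (r : ℂ) = (((fq (c : ℝ))^[n] r : ℝ) : ℂ) :=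
      fq_map Complex.ofRealHom (c : ℝ) r n
    rw [h2] at h1
    have h3 : (fq (c : ℝ))^[n] r = r := by exact_mod_cast h1
    have hc' : -3 / 4 < (c : ℝ) := by exact_mod_cast hc
    have h4 := real_per hc' (by omega) h3
    have h5 : Function.minimalPeriod (fq ((c : ℝ) : ℂ)) (r : ℂ) = 1 := by
      rw [Function.minimalPeriod_eq_one_iff_isFixedPt]
      have h6 := fq_map Complex.ofRealHom (c : ℝ) r 1
      rw [Function.iterate_one, Function.iterate_one, h4] at h6
      exact h6
    have h7 := key0 hA hB hPER ℂ _ (quad_monic _).2 n (by omega) _ hD _ hx'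
    rw [eval_fq, hcR, h5, it_one] at h7
    rcases h7 with h7 | h7
    · omega
    · have h8 : (X ^ 2 + C ((c : ℝ) : ℂ) : ℂ[X]).derivative.eval (r : ℂ) = ((2 * r : ℝ) : ℂ) := by
        rw [derivative_add, derivative_X_pow, derivative_C, add_zero]
        simp
      rw [h8, one_mul] at h7
      have h9 : orderOf ((2 * r : ℝ) : ℂ) = orderOf (2 * r : ℝ) :=
        orderOf_injective (Complex.ofRealHom : ℝ →* ℂ) Complex.ofReal_injective (2 * r)
      rw [h9] at h7
      have h10 : (2 * r : ℝ) ^ n = 1 := by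
        rw [h7]
        exact pow_orderOf_eq_one _
      have h11 : |2 * r| = 1 := by
        have h12 : |2 * r| ^ n = 1 := by rw [← abs_pow, h10, abs_one]
        exact (pow_eq_one_iff_of_nonneg (abs_nonneg _) (by omega)).1 h12
      have h12 : (2 * r : ℝ) ^ 2 = 1 := by
        rw [← sq_abs, h11, one_pow]
      have h13 := Nat.le_of_dvd (by norm_num) (orderOf_dvd_of_pow_eq_one h12)
      omega)
  exact hG2 Φ hΦ0 L g hg1 hg2

end Pool.Agent.K1H73.DY
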