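import Pool.Agent.K1H73.DY.CaseD
import Pool.Agent.K1H73.DY.CaseE
import Pool.Agent.K1H73.DY.Pairs
import Pool.Agent.K1H73.DY.Real
import Pool.Agent.K1H33.DY.Mul
import Pool.Agent.K1H33.DY.Lift
import Pool.Agent.K1H61.DY.B
import Pool.Agent.K1H61.DY.E
import Pool.Agent.K1H61.DY.H
import Pool.Agent.K1H16.DY.Dens
import Pool.Agent.K1H16.DY.Res
import Pool.Agent.K1H92.DY.Frob

set_option autoImplicit false

/-!
# Densities of the primes with `p`-adic periodic points of quadratic polynomials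
-/

namespace Pool.Agent.K1H73.DY

open Polynomial

lemma hA : S_A := Pool.Agent.K1H33.DY.t_A
lemma hB : S_B := Pool.Agent.K1H61.DY.t_B
lemma hPER : S_PER := Pool.Agent.K1H61.DY.t_PER
lemma hKEY : S_KEY := Pool.Agent.K1H33.DY.t_KEY hA hB hPER
lemma hLIFT : S_LIFT := Pool.Agent.K1H33.DY.t_LIFT
lemma hCONJ : S_CONJ := Pool.Agent.K1H61.DY.t_CONJ
lemma hRAT : S_RAT := Pool.Agent.K1H61.DY.t_RAT
lemma hFROB : S_FROB := Pool.Agent.K1H92.DY.frob
lemma hRES : S_RES := Pool.Agent.K1H16.DY.t_RES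
lemma hSW : S_SW := Pool.Agent.K1H16.DY.t_SW
lemma hESC : S_ESC := Pool.Agent.K1H16.DY.t_ESC
lemma hG1 : S_G1 := Pool.Agent.K1H61.DY.t_G1
lemma hG2 : S_G2 := Pool.Agent.K1H16.DY.t_G2

/-- the criterion of good reduction -/
theorem crit (c : ℚ) (n : ℕ) (hn : 1 ≤ n) (Φ : ℚ[X]) (hΦ : Dyn (X ^ 2 + C c) n Φ) (p : ℕ) [Fact p.Prime]
    (hp : ¬ p ∣ c.den) (h : ¬ Exc p (c : ZMod p) n) : Concl Φ := by
  apply good hPER hKEY hLIFT hFROB hRES hG1 hG2 c n hn Φ hΦ p hp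
  intro z hz
  refine ⟨fun h1 => h ⟨z, hz, Or.inl h1⟩, fun e h1 => h ⟨z, hz, Or.inr ⟨e, h1⟩⟩⟩

/-- two primes of good reduction -/
theorem crit2 (c : ℚ) (n : ℕ) (hn : 1 ≤ n) (Φ : ℚ[X]) (hΦ : Dyn (X ^ 2 + C c) n Φ) (p q : ℕ) [Fact p.Prime]
    [Fact q.Prime] (hp : ¬ p ∣ c.den) (hq : ¬ q ∣ c.den)
    (h : Exc p (c : ZMod p) n → Exc q (c : ZMod q) n → False) : Concl Φ := by
  by_cases h1 : Exc p (c : ZMod p) n
  · by_cases h2 : Exc q (c : ZMod q) n
    · exact (h h1 h2).elim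
    · exact crit c n hn Φ hΦ q hq h2
  · exact crit c n hn Φ hΦ p hp h1

/-- escape: `|4 c|_p > 1` and `1 - 4 c` not a square -/
theorem case_esc (c : ℚ) (n : ℕ) (hn : 1 ≤ n) (Φ : ℚ[X]) (hΦ : Dyn (X ^ 2 + C c) n Φ) (p : ℕ) [Fact p.Prime]
    (h1 : 1 < ‖((4 * c : ℚ) : ℚ_[p])‖) (h2 : ¬ IsSquare ((1 - 4 * c : ℚ) : ℚ_[p])) : Concl Φ := by
  have hΦ0 : Φ ≠ 0 := Dyn_ne_zero (quad_monic c).2 hΦ
  push_cast at h1 h2
  obtain ⟨σ, hσ⟩ := hESC p (c : ℚ_[p]) h1 h2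
  have hD := Dyn_map (algebraMap ℚ (PadicAlgCl p)) hΦ
  rw [Polynomial.map_add, Polynomial.map_pow, map_X, map_C] at hD
  obtain ⟨L, hL1, hL2, hL3, g, hg1, hg2⟩ := hG1 Φ hΦ0 (PadicAlgCl p) (σ : PadicAlgCl p ≃+* PadicAlgCl p) (by
    intro x hx hfix
    have hx' : (Φ.map (algebraMap ℚ (PadicAlgCl p))).eval x = 0 := by
      rw [eval_map_algebraMap]
      exact hx
    have h3 := hPER _ _ (quad_monic _).2 n hn _ hD _ hx'
    rw [it_eval, eval_fq] at h3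
    apply hσ x hfix n hn
    rw [map_ratCast, ← eq_ratCast (algebraMap ℚ (PadicAlgCl p)) c]
    exact h3)
  exact hG2 Φ hΦ0 L g hg1 hg2

/-- the norm of a rational number at a prime dividing the denominator -/
lemma norm_den {p : ℕ} [hp : Fact p.Prime] {c : ℚ} (h : p ∣ c.den) :
    ‖(c : ℚ_[p])‖ = (p : ℝ) ^ (c.den.factorization p) := by
  have hcop : ¬ p ∣ c.num.natAbs := by
    intro h1
    have h2 := Nat.dvd_gcd h1 h
    rw [c.reduced] at h2
    exact hp.out.one_lt.ne' (Nat.dvd_one.1 h2)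
  have h1 : (c : ℚ_[p]) * (c.den : ℚ_[p]) = (c.num : ℚ_[p]) := by
    have : c * (c.den : ℚ) = c.num := Rat.mul_den_eq_num c
    exact_mod_cast congrArg (fun x : ℚ => (x : ℚ_[p])) this
  have h2 : ‖(c.num : ℚ_[p])‖ = 1 := by
    have h3 : ¬ ‖(c.num : ℚ_[p])‖ < 1 := by
      rw [Padic.norm_intCast_lt_one_iff]
      intro h4
      exact hcop (Int.natCast_dvd.1 h4)
    exact le_antisymm (Padic.norm_int_le_one _) (not_lt.1 h3)
  have h3 : ‖(c.den : ℚ_[p])‖ = (p : ℝ) ^ (-(c.den.factorization p : ℤ)) := by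
    have hne : (c.den : ℚ_[p]) ≠ 0 := by exact_mod_cast c.den_nz
    rw [Padic.norm_eq_zpow_neg_valuation hne, Padic.valuation_natCast, Nat.factorization_def _ hp.out]
  have h4 := congrArg norm h1
  rw [norm_mul, h2, h3, zpow_neg, zpow_natCast] at h4
  have h5 : (0 : ℝ) < (p : ℝ) ^ (c.den.factorization p) := by
    have := hp.out.pos
    positivity
  rw [← div_eq_mul_inv, div_eq_one_iff_eq h5.ne'] at h4
  exact h4

/-- an odd power of `p` is not the norm of a square -/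
lemma not_sq_of_norm {p : ℕ} [hp : Fact p.Prime] {x : ℚ_[p]} {k : ℤ} (hk : Odd k) (h : ‖x‖ = (p : ℝ) ^ k) :
    ¬ IsSquare x := by
  rintro ⟨s, rfl⟩
  have hs0 : s ≠ 0 := by
    rintro rfl
    rw [mul_zero, norm_zero] at h
    have : (0 : ℝ) < (p : ℝ) ^ k := by
      have := hp.out.pos
      positivity
    linarith
  rw [norm_mul, Padic.norm_eq_zpow_neg_valuation hs0, ← zpow_add₀ (by exact_mod_cast hp.out.ne_zero)] at h
  have h1 : -s.valuation + -s.valuation = k := by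
    apply zpow_right_injective₀ (a := (p : ℝ)) (by exact_mod_cast hp.out.pos) (by
      exact_mod_cast hp.out.one_lt.ne')
    exact h
  obtain ⟨j, hj⟩ := hk
  omega

/-- a denominator which is not a square -/
theorem case_nonsq (c : ℚ) (n : ℕ) (hn : 3 ≤ n) (Φ : ℚ[X]) (hΦ : Dyn (X ^ 2 + C c) n Φ)
    (h : ¬ IsSquare c.den) : Concl Φ := by
  obtain ⟨a, b, hab, hsq⟩ := Nat.sq_mul_squarefree c.den
  have ha1 : a ≠ 1 := by
    rintro rfl
    apply h
    exact ⟨b, by rw [← hab]; ring⟩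
  obtain ⟨p, hp, hpa⟩ := Nat.exists_prime_and_dvd ha1
  haveI : Fact p.Prime := ⟨hp⟩
  have ha0 : a ≠ 0 := hsq.ne_zero
  have hb0 : b ≠ 0 := by
    rintro rfl
    rw [zero_pow two_ne_zero, zero_mul] at hab
    exact c.den_nz hab.symm
  have hv : c.den.factorization p = 2 * b.factorization p + 1 := by
    rw [← hab, Nat.factorization_mul (pow_ne_zero 2 hb0) ha0, Nat.factorization_pow]
    have : a.factorization p = 1 := by
      have h1 := (Nat.squarefree_iff_factorization_le_one ha0).1 hsq p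
      have h2 : 0 < a.factorization p := hp.factorization_pos_of_dvd ha0 hpa
      omega
    rw [Finsupp.add_apply, this]
    rfl
  have hpd : p ∣ c.den := by
    rw [← hab]
    exact hpa.mul_left _
  have hnorm := norm_den hpd
  rw [hv] at hnorm
  obtain ⟨v, hvd⟩ : ∃ v, v = b.factorization p := ⟨_, rfl⟩
  rw [← hvd] at hnorm
  -- the norm of `4 c`
  rcases eq_or_ne p 2 with rfl | hp2
  · have h4 : ‖((4 * c : ℚ) : ℚ_[2])‖ = (2 : ℝ) ^ ((2 * v : ℤ) - 1) := by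
      have h2 : ‖(2 : ℚ_[2])‖ = 1 / 2 := by
        have := Padic.norm_p (p := 2)
        push_cast at this
        rw [this]
        norm_num
      have e : ((4 * c : ℚ) : ℚ_[2]) = 2 * 2 * (c : ℚ_[2]) := by
        push_cast
        ring
      rw [e, norm_mul, norm_mul, h2, hnorm, zpow_sub₀ (by norm_num), zpow_one]
      push_cast
      rw [pow_succ]
      have : (2 : ℝ) ^ (2 * (v : ℤ)) = 2 ^ (2 * v) := by
        rw [← zpow_natCast]
        push_cast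
        rfl
      rw [this]
      ring
    rcases Nat.eq_zero_or_pos v with hv0 | hv0
    · apply case_d hPER hKEY hLIFT hCONJ hFROB hSW hG1 hG2 c n hn Φ hΦ
      rw [h4, hv0]
      norm_num
    · have hgt : 1 < ‖((4 * c : ℚ) : ℚ_[2])‖ := by
        rw [h4]
        exact one_lt_zpow₀ (by norm_num) (by omega)
      apply case_esc c n (by omega) Φ hΦ 2 hgt
      apply not_sq_of_norm (k := 2 * (v : ℤ) - 1) ⟨(v : ℤ) - 1, by ring⟩
      rw [Nat.cast_ofNat, ← h4]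
      have e : ((1 - 4 * c : ℚ) : ℚ_[2]) = 1 + -((4 * c : ℚ) : ℚ_[2]) := by
        push_cast
        ring
      rw [e, IsUltrametricDist.norm_add_eq_max_of_norm_ne_norm (by rw [norm_neg, norm_one]; exact hgt.ne),
        norm_neg, norm_one]
      exact max_eq_right hgt.le
  · have h4 : ‖((4 * c : ℚ) : ℚ_[p])‖ = (p : ℝ) ^ (2 * v + 1) := by
      have hn4 : ‖(4 : ℚ_[p])‖ = 1 := by
        have h3 : ¬ ‖((4 : ℤ) : ℚ_[p])‖ < 1 := by
          rw [Padic.norm_intCast_lt_one_iff]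
          intro h5
          have h6 : p ∣ 4 := by exact_mod_cast h5
          have h7 : p ∣ 2 ^ 2 := by simpa using h6
          exact hp2 ((Nat.prime_dvd_prime_iff_eq hp Nat.prime_two).1 (hp.dvd_of_dvd_pow h7))
        have h5 := le_antisymm (Padic.norm_int_le_one (p := p) 4) (not_lt.1 h3)
        exact_mod_cast h5
      push_cast
      rw [norm_mul, hn4, one_mul, hnorm]
    have hgt : 1 < ‖((4 * c : ℚ) : ℚ_[p])‖ := by
      rw [h4]
      exact one_lt_pow₀ (by exact_mod_cast hp.one_lt) (by omega)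
    apply case_esc c n (by omega) Φ hΦ p hgt
    apply not_sq_of_norm (k := ((2 * v + 1 : ℕ) : ℤ)) ⟨(v : ℤ), by push_cast; ring⟩
    rw [zpow_natCast, ← h4]
    have e : ((1 - 4 * c : ℚ) : ℚ_[p]) = 1 + -((4 * c : ℚ) : ℚ_[p]) := by
      push_cast
      ring
    rw [e, IsUltrametricDist.norm_add_eq_max_of_norm_ne_norm (by rw [norm_neg, norm_one]; exact hgt.ne),
      norm_neg, norm_one]
    exact max_eq_right hgt.le

/-- `4 ∣ den c`, `8 ∤ den c` -/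
theorem case_four (c : ℚ) (n : ℕ) (hn : 3 < n) (Φ : ℚ[X]) (hΦ : Dyn (X ^ 2 + C c) n Φ)
    (h4 : 4 ∣ c.den) (h8 : ¬ 8 ∣ c.den) (h : ¬ 3 ∣ c.den ∨ ∀ e : ℕ, n ≠ 2 ^ e) : Concl Φ := by
  by_cases hpow : ∀ e : ℕ, n ≠ 2 ^ e
  · have hn4 : ‖((4 * c : ℚ) : ℚ_[2])‖ = 1 := by
      have h2 : ‖(2 : ℚ_[2])‖ = 1 / 2 := by
        have := Padic.norm_p (p := 2)
        push_cast at this
        rw [this]
        norm_num
      have hf : c.den.factorization 2 = 2 := by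
        have h5 : 2 ≤ c.den.factorization 2 :=
          (Nat.prime_two.pow_dvd_iff_le_factorization c.den_nz).1 (by simpa using h4)
        have h6 : ¬ 3 ≤ c.den.factorization 2 := fun h7 =>
          h8 (by simpa using (Nat.prime_two.pow_dvd_iff_le_factorization c.den_nz).2 h7)
        omega
      have hnorm := norm_den (p := 2) (c := c) ((show 2 ∣ 4 by norm_num).trans h4)
      rw [hf] at hnorm
      have e : ((4 * c : ℚ) : ℚ_[2]) = 2 * 2 * (c : ℚ_[2]) := by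
        push_cast
        ring
      rw [e, norm_mul, norm_mul, h2, hnorm]
      norm_num
    have hden : ¬ 2 ∣ (4 * c).den := by
      intro h5
      have h6 := norm_den (p := 2) h5
      rw [hn4] at h6
      have h7 : 0 < (4 * c).den.factorization 2 := Nat.prime_two.factorization_pos_of_dvd (4 * c).den_nz h5
      have h8 : (1 : ℝ) < (2 : ℝ) ^ ((4 * c).den.factorization 2) := one_lt_pow₀ (by norm_num) (by omega)
      push_cast at h6
      linarith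
    exact case_e hPER hKEY hLIFT hCONJ hFROB hRES hG1 hG2 c n (by omega) hpow Φ hΦ hden (by
      rw [norm_rat]
      exact hn4)
  · push Not at hpow
    obtain ⟨e, he⟩ := hpow
    have h3 : ¬ 3 ∣ c.den := h.resolve_right (fun h' => h' e he)
    apply crit c n (by omega) Φ hΦ 3 h3
    intro hE
    obtain ⟨a, ha, f, hf⟩ := exc_of_tab tab3 hE (by omega)
    have hf0 : f = 0 := by
      by_contra hf0
      have h5 : 3 ∣ 2 ^ e := by
        rw [← he, hf]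
        exact Dvd.dvd.mul_left (dvd_pow_self 3 hf0) _
      have := Nat.prime_three.dvd_of_dvd_pow h5
      omega
    rw [hf0, pow_zero, mul_one] at hf
    simp only [Finset.mem_insert, Finset.mem_singleton] at ha
    omega

/-- **All cases** -/
theorem main_c (c : ℚ) (n : ℕ) (hn : 3 < n) (Φ : ℚ[X]) (hΦ : Dyn (X ^ 2 + C c) n Φ)
    (H : ¬ (Even c.den ∧ IsSquare c.den) ∨ -3 / 4 < c ∨
      (∃ (p : ℕ) (_ : Fact p.Prime), 1 < ‖((4 * c : ℚ) : ℚ_[p])‖ ∧ ¬ IsSquare ((1 - 4 * c : ℚ) : ℚ_[p])) ∨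
      (4 ∣ c.den ∧ ¬ 8 ∣ c.den ∧ (¬ 3 ∣ c.den ∨ ∀ e : ℕ, n ≠ 2 ^ e)) ∨
      (¬ 3 ∣ c.den ∧ ¬ 5 ∣ c.den) ∨ (¬ 5 ∣ c.den ∧ ¬ 7 ∣ c.den ∧ n ≠ 4) ∨ (¬ 3 ∣ c.den ∧ ¬ 7 ∣ c.den ∧ n ≠ 6) ∨
      (∃ p ∈ PP, ∃ q ∈ PP, p < q ∧ ¬ p ∣ c.den ∧ ¬ q ∣ c.den ∧ 54 < n) ∨
      (∃ p q : ℕ, p.Prime ∧ q.Prime ∧ p ≠ q ∧ ¬ p ∣ c.den ∧ ¬ q ∣ c.den ∧ p * (p - 1) * (q * (q - 1)) < n) ∨
      (∃ (p : ℕ) (_ : Fact p.Prime), ¬ p ∣ c.den ∧ ¬ Exc p (c : ZMod p) n)) : Concl Φ := by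
  have hn1 : 1 ≤ n := by omega
  haveI h5 : Fact (Nat.Prime 5) := ⟨by norm_num⟩
  haveI h7 : Fact (Nat.Prime 7) := ⟨by norm_num⟩
  rcases H with H | H | H | H | H | H | H | H | H | H
  · by_cases hsq : IsSquare c.den
    · have hodd : ¬ 2 ∣ c.den := fun h => H ⟨even_iff_two_dvd.2 h, hsq⟩
      apply crit c n hn1 Φ hΦ 2 hodd
      intro hE
      have := exc2 hn1 hE
      omega
    · exact case_nonsq c n (by omega) Φ hΦ hsq
  · exact case_real hA hB hPER hG1 hG2 c n (by omega) Φ hΦ H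
  · obtain ⟨p, hp, h1, h2⟩ := H
    exact case_esc c n hn1 Φ hΦ p h1 h2
  · exact case_four c n hn Φ hΦ H.1 H.2.1 H.2.2
  · exact crit2 c n hn1 Φ hΦ 3 5 H.1 H.2 (fun h1 h2 => by
      have := exc35 h1 h2
      omega)
  · exact crit2 c n hn1 Φ hΦ 5 7 H.1 H.2.1 (fun h1 h2 => by
      have := exc57 h1 h2
      have := H.2.2
      omega)
  · exact crit2 c n hn1 Φ hΦ 3 7 H.1 H.2.1 (fun h1 h2 => by
      have := exc37 h1 h2
      have := H.2.2
      omega)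
  · obtain ⟨p, hp, q, hq, hpq, h1, h2, h3⟩ := H
    haveI : Fact p.Prime := ⟨PP_prime hp⟩
    haveI : Fact q.Prime := ⟨PP_prime hq⟩
    exact crit2 c n hn1 Φ hΦ p q h1 h2 (fun h4 h5 => by
      have := exc_pairs hp hq hpq h4 h5
      omega)
  · obtain ⟨p, q, hp, hq, hpq, h1, h2, h3⟩ := H
    haveI : Fact p.Prime := ⟨hp⟩
    haveI : Fact q.Prime := ⟨hq⟩
    exact crit2 c n hn1 Φ hΦ p q h1 h2 (fun h4 h5 => by
      have := exc_bound hpq hn1 h4 h5
      omega)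
  · obtain ⟨p, hp, h1, h2⟩ := H
    exact crit c n hn1 Φ hΦ p h1 h2

/-- the conjugate polynomial -/
theorem conj_f (f : ℚ[X]) (hf : f.natDegree = 2) (n : ℕ) (hn : 2 ≤ n) (Φ : ℚ[X]) (hΦ : Dyn f n Φ) :
    ∃ Φ' : ℚ[X], Dyn (X ^ 2 + C (f.coeff 2 * f.coeff 0 + f.coeff 1 / 2 - f.coeff 1 ^ 2 / 4)) n Φ' ∧
      (Concl Φ' → Concl Φ) := by
  have ha : f.coeff 2 ≠ 0 := by
    rw [← hf]
    intro h
    have h1 : f.leadingCoeff = 0 := h
    rw [leadingCoeff_eq_zero] at h1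
    rw [h1, natDegree_zero] at hf
    omega
  have hfe : f = C (f.coeff 2) * X ^ 2 + C (f.coeff 1) * X + C (f.coeff 0) := by
    conv_lhs => rw [f.as_sum_range_C_mul_X_pow, hf]
    rw [Finset.sum_range_succ, Finset.sum_range_succ, Finset.sum_range_one]
    ring
  have h1 := hCONJ ℚ f (X ^ 2 + C (f.coeff 2 * f.coeff 0 + f.coeff 1 / 2 - f.coeff 1 ^ 2 / 4)) (f.coeff 2)
    (f.coeff 1 / 2) ha (by
      obtain ⟨a, hae⟩ : ∃ a, a = f.coeff 2 := ⟨_, rfl⟩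
      obtain ⟨b, hbe⟩ : ∃ b, b = f.coeff 1 := ⟨_, rfl⟩
      obtain ⟨d, hde⟩ : ∃ d, d = f.coeff 0 := ⟨_, rfl⟩
      rw [← hae, ← hbe, ← hde] at hfe ⊢
      rw [hfe, add_comp, pow_comp, X_comp, C_comp]
      have e1 : (C b : ℚ[X]) = C (b / 2) * 2 := by
        rw [show (2 : ℚ[X]) = C 2 from (map_ofNat C 2).symm, ← C_mul]
        congr 1
        ring
      have e2 : (C (a * d + b / 2 - b ^ 2 / 4) : ℚ[X]) = C a * C d + C (b / 2) - C (b / 2) ^ 2 := by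
        rw [← C_mul, ← C_pow, ← C_add, ← C_sub]
        congr 1
        ring
      rw [e1, e2]
      ring) n hn Φ hΦ
  refine ⟨_, h1, ?_⟩
  rintro ⟨r, hr, N₀, h⟩
  refine ⟨r, hr, N₀, fun N hN => ?_⟩
  have h2 := h N hN
  have h3 : ∀ p : ℕ, LocRoot p Φ ↔ LocRoot p (Φ.comp (C (f.coeff 2)⁻¹ * (X - C (f.coeff 1 / 2)))) := by
    intro p
    constructor
    · rintro ⟨hp, x, hx⟩
      refine ⟨hp, (f.coeff 2 : ℚ_[p]) * x + ((f.coeff 1 / 2 : ℚ) : ℚ_[p]), ?_⟩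
      rw [aeval_comp, map_mul, aeval_C, map_sub, aeval_X, aeval_C, eq_ratCast, eq_ratCast, add_sub_cancel_right,
        Rat.cast_inv, inv_mul_cancel_left₀ (by exact_mod_cast ha)]
      exact hx
    · rintro ⟨hp, x, hx⟩
      refine ⟨hp, ((f.coeff 2)⁻¹ : ℚ) * (x - ((f.coeff 1 / 2 : ℚ) : ℚ_[p])), ?_⟩
      rw [aeval_comp, map_mul, aeval_C, map_sub, aeval_X, aeval_C, eq_ratCast, eq_ratCast] at hx
      exact hx
  simp only [h3]
  exact h2

end Pool.Agent.K1H73.DY
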