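import Pool.Agent.K1H73.DY.Bas

set_option autoImplicit false

/-!
# Dynatomic polynomials of quadratic polynomials: statements of the pieces
-/

namespace Pool.Agent.K1H73.DY

open Polynomial

/-! ### Multiplicities of periodic points -/

/-- A: if `h^j (y) = y` with multiplier `m` and `1 + m + ... + m ^ (q - 1) ≠ 0` then `y` has the same
multiplicity as a root of `h^(q j) (X) - X` and of `h^j (X) - X`. -/
def S_A : Prop := ∀ (k : Type) [Field k] (h : k[X]), h.natDegree = 2 → ∀ q j : ℕ, 1 ≤ q → 1 ≤ j →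
  ∀ y : k, (it h j).eval y = y → ∑ i ∈ Finset.range q, ((it h j).derivative.eval y) ^ i ≠ 0 →
    (FF h (q * j)).rootMultiplicity y = (FF h j).rootMultiplicity y

/-- B: cancellation in the sum of the `μ (n / d)` times the multiplicities. -/
def S_B : Prop := ∀ (k : Type) [Field k] (h : k[X]), h.natDegree = 2 → ∀ n : ℕ, 1 ≤ n → ∀ Φ : k[X],
  Dyn h n Φ → ∀ q : ℕ, q.Prime → q ∣ n → ∀ y : k,
    (∀ d : ℕ, d ∣ n → ¬ q ∣ n / d →
      (FF h d).rootMultiplicity y = (FF h (d / q)).rootMultiplicity y) → Φ.eval y ≠ 0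

/-- the roots of the dynatomic polynomial are periodic -/
def S_PER : Prop := ∀ (k : Type) [Field k] (h : k[X]), h.natDegree = 2 → ∀ n : ℕ, 1 ≤ n → ∀ Φ : k[X],
  Dyn h n Φ → ∀ y : k, Φ.eval y = 0 → (it h n).eval y = y

/-- C: in characteristic `p` a root of the `n`-th dynatomic polynomial of exact period `m` and
multiplier of order `r` has `n = m` or `n = m r p ^ e` -/
def S_KEY : Prop := ∀ (k : Type) [Field k] (p : ℕ) [Fact p.Prime] [CharP k p] (h : k[X]),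
  h.natDegree = 2 → ∀ n : ℕ, 1 ≤ n → ∀ Φ : k[X], Dyn h n Φ → ∀ y : k, Φ.eval y = 0 →
    n = Function.minimalPeriod (fun z => h.eval z) y ∨
    ∃ e : ℕ, n = Function.minimalPeriod (fun z => h.eval z) y *
      orderOf ((it h (Function.minimalPeriod (fun z => h.eval z) y)).derivative.eval y) * p ^ e

/-- D: dynatomic polynomials of monic quadratic polynomials with coefficients in a subring have
coefficients in the subring -/
def S_LIFT : Prop := ∀ (K : Type) [Field K] (A : Subring K) (h : A[X]), h.Monic → h.natDegree = 2 →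
  ∀ n : ℕ, 1 ≤ n → ∀ Φ : K[X], Dyn (h.map A.subtype) n Φ →
    ∃ Φ₀ : A[X], Φ₀.map A.subtype = Φ ∧ Dyn h n Φ₀

/-- E: change of variables -/
def S_CONJ : Prop := ∀ (K : Type) [Field K] (f h : K[X]) (a t : K), a ≠ 0 →
  C a * f + C t = h.comp (C a * X + C t) → ∀ n : ℕ, 2 ≤ n → ∀ Φ : K[X], Dyn f n Φ →
    Dyn h n (Φ.comp (C a⁻¹ * (X - C t)))

/-- the definition of the problem -/
def S_RAT : Prop := ∀ (f Φ : ℚ[X]), f.natDegree = 2 → ∀ n : ℕ, 1 ≤ n →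
  algebraMap ℚ[X] (RatFunc ℚ) Φ = ∏ d ∈ n.divisors,
    (algebraMap ℚ[X] (RatFunc ℚ) ((f.comp)^[d] X - X)) ^ (ArithmeticFunction.moebius (n / d)) →
  Dyn f n Φ

/-! ### Automorphisms of the closure of the field of `p`-adic numbers -/

/-- F: a Frobenius element for the residues in the field with `p ^ M` elements -/
def S_FROB : Prop := ∀ (p : ℕ) [Fact p.Prime] (M : ℕ), 1 ≤ M →
  ∃ σ : PadicAlgCl p ≃ₐ[ℚ_[p]] PadicAlgCl p, ∀ x : PadicAlgCl p, ‖x‖ ≤ 1 → ‖x ^ (p ^ M) - x‖ < 1 →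
    ‖σ x - x ^ p‖ < 1

/-- G: the residues of integral elements are in finite fields -/
def S_RES : Prop := ∀ (p : ℕ) [Fact p.Prime] (x : PadicAlgCl p), ‖x‖ ≤ 1 →
  ∃ d : ℕ, 1 ≤ d ∧ ‖x ^ (p ^ d) - x‖ < 1

/-- H: square roots of non-squares are moved -/
def S_SW : Prop := ∀ (p : ℕ) [Fact p.Prime] (c : ℚ_[p]), ¬ IsSquare c → ∀ δ : PadicAlgCl p,
  δ ^ 2 = algebraMap ℚ_[p] (PadicAlgCl p) c → ∃ τ : PadicAlgCl p ≃ₐ[ℚ_[p]] PadicAlgCl p, τ δ = -δ

/-- I: if `|4 c|_p > 1` and `1 - 4 c` is not a square in `ℚ_p`, an automorphism fixes no periodic point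
of `x ^ 2 + c` -/
def S_ESC : Prop := ∀ (p : ℕ) [Fact p.Prime] (c : ℚ_[p]), 1 < ‖4 * c‖ → ¬ IsSquare (1 - 4 * c) →
  ∃ σ : PadicAlgCl p ≃ₐ[ℚ_[p]] PadicAlgCl p, ∀ x : PadicAlgCl p, σ x = x → ∀ n : ℕ, 1 ≤ n →
    (fun z => z ^ 2 + algebraMap ℚ_[p] (PadicAlgCl p) c)^[n] x ≠ x

/-! ### Densities -/

/-- `Φ` has a root in the field of `p`-adic numbers -/
def LocRoot (p : ℕ) (Φ : ℚ[X]) : Prop := ∃ (_ : Fact p.Prime) (x : ℚ_[p]), aeval x Φ = 0

/-- the primes `p` for which `Φ` has a `p`-adic root have an upper density `< 1` -/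
def Concl (Φ : ℚ[X]) : Prop := ∃ r : ℝ, r < 1 ∧ ∃ N₀ : ℕ, ∀ N : ℕ, N₀ ≤ N →
  ({p : ℕ | p ≤ N ∧ p.Prime ∧ LocRoot p Φ}.ncard : ℝ) / ({p : ℕ | p ≤ N ∧ p.Prime}.ncard : ℝ) ≤ r

/-- J: from an automorphism of a large field to a Galois group -/
def S_G1 : Prop := ∀ Φ : ℚ[X], Φ ≠ 0 → ∀ (K : Type) [Field K] [Algebra ℚ K] [IsAlgClosed K]
  (σ : K ≃+* K), (∀ x : K, aeval x Φ = 0 → σ x ≠ x) →
    ∃ (M : Type) (_ : Field M) (_ : NumberField M) (_ : IsGalois ℚ M) (g : M ≃ₐ[ℚ] M),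
      (Φ.map (algebraMap ℚ M)).Splits ∧ ∀ x : M, aeval x Φ = 0 → g x ≠ x

/-- K: the density from Chebotarev's theorem -/
def S_G2 : Prop := ∀ Φ : ℚ[X], Φ ≠ 0 → ∀ (M : Type) [Field M] [NumberField M] [IsGalois ℚ M]
  (g : M ≃ₐ[ℚ] M), (Φ.map (algebraMap ℚ M)).Splits → (∀ x : M, aeval x Φ = 0 → g x ≠ x) → Concl Φ

end Pool.Agent.K1H73.DY
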