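import Pool.Agent.K1H73.DY.Good

set_option autoImplicit false

/-!
# The prime 2 when `c` is not `2`-integral: `v (c) = -1` and `v (c) = -2`
-/

namespace Pool.Agent.K1H73.DY

open Polynomial

section two

variable {k : Type} [Field k] [CharP k 2] {A : Subring (PadicAlgCl 2)} {res : A →+* k}

/-- automorphisms preserve integrality -/
lemma aut_mem (hres : Pool.Agent.W528.HB.IsRes 2 A res) (σ : PadicAlgCl 2 ≃ₐ[ℚ_[2]] PadicAlgCl 2)
    {x : PadicAlgCl 2} (hx : x ∈ A) : σ x ∈ A := by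
  rw [hres.1] at hx ⊢
  rw [Pool.Agent.R940.norm_gal]
  exact hx

/-- the elements of the field with `2 ^ n` elements whose residue class is fixed by the square of `τ` -/
def SS (hres : Pool.Agent.W528.HB.IsRes 2 A res) (τ : PadicAlgCl 2 ≃ₐ[ℚ_[2]] PadicAlgCl 2) (n : ℕ) :
    Subring k where
  carrier := {w | w ^ (2 ^ n) = w ∧ ∃ a : A, res a = w ∧ ‖τ (τ a) - a‖ < 1}
  mul_mem' := by
    rintro w w' ⟨h1, a, rfl, h2⟩ ⟨h1', a', rfl, h2'⟩
    refine ⟨by rw [mul_pow, h1, h1'], a * a', map_mul _ _ _, ?_⟩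
    have ha : ‖(a : PadicAlgCl 2)‖ ≤ 1 := (hres.1 _).1 a.2
    have ha' : ‖(a' : PadicAlgCl 2)‖ ≤ 1 := (hres.1 _).1 a'.2
    have e : τ (τ ((a * a' : A) : PadicAlgCl 2)) - ((a * a' : A) : PadicAlgCl 2) =
        τ (τ a) * (τ (τ a') - a') + (τ (τ a) - a) * a' := by
      rw [MulMemClass.coe_mul, map_mul, map_mul]
      ring
    rw [e]
    refine (IsUltrametricDist.norm_add_le_max _ _).trans_lt ?_
    rw [norm_mul, norm_mul, Pool.Agent.R940.norm_gal, Pool.Agent.R940.norm_gal, max_lt_iff]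
    constructor
    · nlinarith [norm_nonneg (τ (τ (a' : PadicAlgCl 2)) - a')]
    · nlinarith [norm_nonneg (τ (τ (a : PadicAlgCl 2)) - a)]
  one_mem' := ⟨one_pow _, 1, map_one _, by
    rw [OneMemClass.coe_one, map_one, map_one, sub_self, norm_zero]
    exact one_pos⟩
  add_mem' := by
    rintro w w' ⟨h1, a, rfl, h2⟩ ⟨h1', a', rfl, h2'⟩
    refine ⟨by rw [add_pow_char_pow, h1, h1'], a + a', map_add _ _ _, ?_⟩
    have e : τ (τ ((a + a' : A) : PadicAlgCl 2)) - ((a + a' : A) : PadicAlgCl 2) =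
        (τ (τ a) - a) + (τ (τ a') - a') := by
      rw [AddMemClass.coe_add, map_add, map_add]
      ring
    rw [e]
    exact (IsUltrametricDist.norm_add_le_max _ _).trans_lt (max_lt h2 h2')
  zero_mem' := ⟨zero_pow (by positivity), 0, map_zero _, by
    rw [ZeroMemClass.coe_zero, map_zero, map_zero, sub_self, norm_zero]
    exact one_pos⟩
  neg_mem' := by
    rintro w h
    rw [CharTwo.neg_eq]
    exact h

/-- the squaring map -/
lemma sq_iter {R : Type} [CommRing R] (z : R) (n : ℕ) : (fun w : R => w ^ 2)^[n] z = z ^ (2 ^ n) := by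
  induction n with
  | zero => rw [Function.iterate_zero_apply, pow_zero, pow_one]
  | succ n ih =>
    rw [Function.iterate_succ_apply', ih]
    show (z ^ 2 ^ n) ^ 2 = _
    rw [← pow_mul, pow_succ]

open Classical in
/-- if the subring contains an element of exact period `n` under squaring, it is the whole field -/
lemma SS_full (hres : Pool.Agent.W528.HB.IsRes 2 A res) (τ : PadicAlgCl 2 ≃ₐ[ℚ_[2]] PadicAlgCl 2) {n : ℕ}
    (hn : 1 ≤ n) {z : k} (hz : z ∈ SS hres τ n) (hzn : Function.minimalPeriod (fun w : k => w ^ 2) z = n)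
    {w : k} (hw : w ^ (2 ^ n) = w) : w ∈ SS hres τ n := by
  have hP : (X ^ (2 ^ n) - X : k[X]) ≠ 0 := FiniteField.X_pow_card_pow_sub_X_ne_zero k (by omega) (by norm_num)
  have hdeg : (X ^ (2 ^ n) - X : k[X]).natDegree = 2 ^ n :=
    FiniteField.X_pow_card_pow_sub_X_natDegree_eq k (by omega) (by norm_num)
  have hroot : ∀ v : k, v ∈ (X ^ (2 ^ n) - X : k[X]).roots.toFinset ↔ v ^ (2 ^ n) = v := by
    intro v
    rw [Multiset.mem_toFinset, mem_roots hP, IsRoot.def, eval_sub, eval_pow, eval_X, sub_eq_zero]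
  have hcardT : (X ^ (2 ^ n) - X : k[X]).roots.toFinset.card ≤ 2 ^ n := by
    exact (Multiset.toFinset_card_le _).trans ((card_roots' _).trans hdeg.le)
  have hsub : ∀ v ∈ SS hres τ n, v ∈ (X ^ (2 ^ n) - X : k[X]).roots.toFinset := fun v hv => (hroot v).2 hv.1
  have hfin : Finite (SS hres τ n) :=
    Set.Finite.subset (Finset.finite_toSet (X ^ (2 ^ n) - X : k[X]).roots.toFinset) hsub
  haveI : Fintype (SS hres τ n) := Fintype.ofFinite _
  letI : Field (SS hres τ n) := Fintype.fieldOfDomain _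
  haveI : CharP (SS hres τ n) 2 := by
    refine ⟨fun x => ?_⟩
    rw [← CharP.cast_eq_zero_iff k 2 x]
    constructor
    · intro h
      have := congrArg (SS hres τ n).subtype h
      rw [map_natCast, map_zero] at this
      exact this
    · intro h
      apply Subtype.ext
      push_cast
      exact h
  obtain ⟨d, -, hd⟩ := FiniteField.card (SS hres τ n) 2
  have h1 : (⟨z, hz⟩ : SS hres τ n) ^ (2 ^ (d : ℕ)) = ⟨z, hz⟩ := by
    rw [← hd]
    exact FiniteField.pow_card _
  have h2 : z ^ (2 ^ (d : ℕ)) = z := congrArg Subtype.val h1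
  have h3 : n ∣ (d : ℕ) := by
    rw [← hzn, ← Function.isPeriodicPt_iff_minimalPeriod_dvd]
    unfold Function.IsPeriodicPt Function.IsFixedPt
    rw [sq_iter]
    exact h2
  have h4 : 2 ^ n ≤ Fintype.card (SS hres τ n) := by
    rw [hd]
    exact Nat.pow_le_pow_right (by norm_num) (Nat.le_of_dvd d.pos h3)
  obtain ⟨E, hE⟩ : ∃ E : Finset k, ∀ v, v ∈ E ↔ v ∈ SS hres τ n :=
    ⟨(Finset.univ : Finset (SS hres τ n)).map ⟨Subtype.val, Subtype.val_injective⟩, fun v => by
      simp⟩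
  have hEc : E.card = Fintype.card (SS hres τ n) := by
    rw [← Fintype.card_coe]
    exact Fintype.card_congr (Equiv.subtypeEquivRight hE)
  have h5 : E = (X ^ (2 ^ n) - X : k[X]).roots.toFinset := by
    apply Finset.eq_of_subset_of_card_le
    · intro v hv
      exact hsub v ((hE v).1 hv)
    · omega
  rw [← hE, h5, hroot]
  exact hw


/-- the norm of `2` -/
lemma norm_two : ‖(2 : PadicAlgCl 2)‖ = 1 / 2 := by
  have h : ((2 : ℚ_[2]) : PadicAlgCl 2) = 2 := map_ofNat (algebraMap ℚ_[2] (PadicAlgCl 2)) 2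
  rw [← h, PadicAlgCl.norm_extends]
  have := Padic.norm_p (p := 2)
  push_cast at this
  rw [this]
  norm_num

/-- the change of variables `x = y + β`, `2 β = 1 + δ`, `δ ^ 2 = 1 - 4 c`, which moves the fixed point `β` to `0` -/
lemma setup (hPER : S_PER) (hKEY : S_KEY) (hLIFT : S_LIFT) (hCONJ : S_CONJ)
    (hres : Pool.Agent.W528.HB.IsRes 2 A res) {c : ℚ} {n : ℕ} (hn : 2 ≤ n) {Φ : ℚ[X]}
    (hΦ : Dyn (X ^ 2 + C c) n Φ) {δ : PadicAlgCl 2} (hδ : δ ^ 2 = 1 - 4 * algebraMap ℚ (PadicAlgCl 2) c)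
    {b : A} (hb : (b : PadicAlgCl 2) = 1 + δ) {x : PadicAlgCl 2} (hx : aeval x Φ = 0) :
    ∃ hyA : x - (1 + δ) / 2 ∈ A,
      (fun z => z ^ 2 + res b * z)^[n] (res ⟨_, hyA⟩) = res ⟨_, hyA⟩ ∧
      (n = Function.minimalPeriod (fun z => z ^ 2 + res b * z) (res ⟨_, hyA⟩) ∨
      ∃ e : ℕ, n = Function.minimalPeriod (fun z => z ^ 2 + res b * z) (res ⟨_, hyA⟩) *
        orderOf ((it (X ^ 2 + C (res b) * X) (Function.minimalPeriod (fun z => z ^ 2 + res b * z)
          (res ⟨_, hyA⟩))).derivative.eval (res ⟨_, hyA⟩)) * 2 ^ e) := by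
  have hD := Dyn_map (algebraMap ℚ (PadicAlgCl 2)) hΦ
  rw [Polynomial.map_add, Polynomial.map_pow, map_X, map_C] at hD
  have h1 := hCONJ (PadicAlgCl 2) (X ^ 2 + C (algebraMap ℚ (PadicAlgCl 2) c))
    (X ^ 2 + C (1 + δ) * X) 1 (-((1 + δ) / 2)) one_ne_zero (by
      have e1 : (C (1 + δ) : (PadicAlgCl 2)[X]) = C ((1 + δ) / 2) * 2 := by
        rw [show (2 : (PadicAlgCl 2)[X]) = C 2 from (map_ofNat C 2).symm, ← C_mul]
        congr 1
        ring
      have e2 : (C (algebraMap ℚ (PadicAlgCl 2) c) : (PadicAlgCl 2)[X]) =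
          C ((1 + δ) / 2) - C ((1 + δ) / 2) * C ((1 + δ) / 2) := by
        rw [← C_mul, ← C_sub]
        congr 1
        have e3 : algebraMap ℚ (PadicAlgCl 2) c = (1 - δ ^ 2) / 4 := by
          rw [hδ]
          ring
        rw [e3]
        ring
      rw [add_comp, pow_comp, mul_comp, X_comp, C_comp, e1, e2, C_neg, C_1]
      ring) n hn _ hD
  obtain ⟨h, hh⟩ : ∃ h : A[X], h = X ^ 2 + C b * X := ⟨_, rfl⟩
  have hq : h = X ^ 2 + (C b * X + C 0) := by rw [hh, C_0, add_zero]
  have hdeg : (C b * X + C 0 : A[X]).degree < 2 := by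
    refine degree_linear_le.trans_lt ?_
    norm_num
  have hm : h.Monic := by
    rw [hq]
    exact monic_X_pow_add hdeg
  have h2 : h.natDegree = 2 := by
    rw [hq, natDegree_add_eq_left_of_degree_lt, natDegree_X_pow]
    rw [degree_X_pow]
    exact hdeg
  have hmA : h.map A.subtype = X ^ 2 + C (1 + δ) * X := by
    rw [hh, Polynomial.map_add, Polynomial.map_pow, Polynomial.map_mul, map_X, map_C, ← hb]
    rfl
  have hmr : h.map res = X ^ 2 + C (res b) * X := by
    rw [hh, Polynomial.map_add, Polynomial.map_pow, Polynomial.map_mul, map_X, map_C]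
  rw [← hmA] at h1
  have hev : (fun z => (h.map res).eval z) = fun z => z ^ 2 + res b * z := by
    funext z
    rw [hmr, eval_add, eval_mul, eval_pow, eval_X, eval_C]
  have h3 := core hPER hKEY hLIFT hres hm h2 (by omega) h1 (y := x - (1 + δ) / 2) (by
    rw [eval_comp, eval_mul, eval_C, eval_sub, eval_X, eval_C, inv_one, one_mul, sub_neg_eq_add, sub_add_cancel,
      eval_map_algebraMap]
    exact hx)
  rw [hev, hmr] at h3
  exact h3

end two

end Pool.Agent.K1H73.DY
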